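import Pool.Agent.Lib.MP_6c3d62_pr.FT.D
import Pool.Agent.Lib.MP_6c3d62_pr.Mg.G075

/-! ROW A (helper50). From the `k`-point laws: no short cycles. -/

set_option autoImplicit false
set_option linter.unusedSectionVars false

open Finset

namespace Pool.Agent.Stirring.FT

open Hier QK

/-- Translation invariance. -/
theorem pShort_eq {d L : ℕ} [NeZero L] (t : ℝ) (x y : Fin d → ZMod L) (m : ℕ) :
    pShort d L t x m = pShort d L t y m := by
  unfold pShort
  exact expect_card_cyc t (fun c => if c ≤ m then (1 : ℝ) else 0) x y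

section Alone

variable {V : Type*} [Fintype V] [DecidableEq V] {k : ℕ}

open Classical in
/-- The cycle of `z 0` contains none of the other points. -/
noncomputable def alone (σ : Equiv.Perm V) (z : Fin (k + 1) → V) : ℝ :=
  if ∀ j : Fin k, ¬ σ.SameCycle (z 0) (z j.succ) then 1 else 0

theorem alone_nonneg (σ : Equiv.Perm V) (z : Fin (k + 1) → V) : 0 ≤ alone σ z := by
  unfold alone
  split_ifs
  · exact zero_le_one
  · exact le_rfl

theorem alone_le (σ : Equiv.Perm V) (z : Fin (k + 1) → V) : alone σ z ≤ 1 := by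
  unfold alone
  split_ifs
  · exact le_rfl
  · exact zero_le_one

theorem fix_iff (τ : Equiv.Perm (Fin (k + 1))) :
    τ 0 = 0 ↔ ∀ j : Fin k, ¬ τ.SameCycle 0 j.succ := by
  constructor
  · intro h j hj
    have h1 : (0 : Fin (k + 1)) = j.succ := hj.eq_of_left h
    exact (Fin.succ_ne_zero j) h1.symm
  · intro h
    by_contra h0
    obtain ⟨j, hj⟩ := Fin.exists_succ_eq.mpr h0
    refine h j ?_
    rw [hj]
    exact Equiv.Perm.sameCycle_apply_right.mpr (Equiv.Perm.SameCycle.refl _ _)

theorem alone_eq (σ : Equiv.Perm V) (z : Fin (k + 1) → V) :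
    alone σ z = ∑ τ : Equiv.Perm (Fin (k + 1)), (if τ 0 = 0 then (1 : ℝ) else 0) * patW τ σ z := by
  classical
  have h1 : ∀ τ : Equiv.Perm (Fin (k + 1)),
      (if τ 0 = 0 then (1 : ℝ) else 0) * patW τ σ z = alone σ z * patW τ σ z := by
    intro τ
    by_cases hτ : Pat σ z τ
    · congr 1
      unfold alone
      refine if_congr ?_ rfl rfl
      rw [fix_iff]
      exact forall_congr' fun j => not_congr (hτ 0 j.succ).symm
    · unfold patW patI
      rw [if_neg hτ, mul_zero, mul_zero, mul_zero]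
  rw [Finset.sum_congr rfl fun τ _ => h1 τ, ← Finset.mul_sum, sum_patW, mul_one]

theorem sum_fix (k : ℕ) :
    ∑ τ : Equiv.Perm (Fin (k + 1)), (if τ 0 = 0 then (1 : ℝ) else 0) = (k.factorial : ℝ) := by
  rw [← Fintype.sum_equiv Equiv.Perm.decomposeFin.symm
    (fun q : Fin (k + 1) × Equiv.Perm (Fin k) => if q.1 = 0 then (1 : ℝ) else 0) _ ?_]
  · rw [Fintype.sum_prod_type_right]
    simp only [Finset.sum_ite_eq', Finset.mem_univ, if_true]
    rw [Finset.sum_const, Finset.card_univ, Fintype.card_perm, Fintype.card_fin, nsmul_eq_mul,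
      mul_one]
  · rintro ⟨p, e⟩
    rw [Equiv.Perm.decomposeFin_symm_apply_zero]

theorem sum_alone (σ : Equiv.Perm V) (k : ℕ) :
    ∑ z : Fin (k + 1) → V, alone σ z =
      ∑ y, ((Fintype.card V : ℝ) - ((cyc σ y).card : ℝ)) ^ k := by
  classical
  rw [← Fintype.sum_equiv (Fin.consEquiv fun _ => V) (fun q => alone σ
    (Fin.cons q.1 q.2 : Fin (k + 1) → V)) _ (fun q => rfl)]
  rw [Fintype.sum_prod_type]
  refine Finset.sum_congr rfl fun x _ => ?_
  have h1 : ∀ y : Fin k → V, alone σ (Fin.cons x y : Fin (k + 1) → V) =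
      if y ∈ Fintype.piFinset (fun _ : Fin k => (cyc σ x)ᶜ) then 1 else 0 := by
    intro y
    unfold alone
    refine if_congr ?_ rfl rfl
    rw [Fintype.mem_piFinset]
    refine forall_congr' fun j => ?_
    rw [Fin.cons_zero, Fin.cons_succ, Finset.mem_compl, mem_cyc]
  rw [Finset.sum_congr rfl fun y _ => h1 y]
  rw [Finset.sum_ite_mem, Finset.univ_inter, Finset.sum_const, Fintype.card_piFinset_const,
    nsmul_eq_mul, mul_one, Finset.card_compl]
  push_cast [Finset.card_le_univ (cyc σ x)]
  rfl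

end Alone

/-- Choose `k ≥ 2/ε`, average the `k`-point law over all `z` (`z` with near pairs: at most
`k² ε'`, `TN.card_bad`); the pattern laws of the `τ` for which the point `0` is alone sum to `1/k`
up to `k! ε'`, and given `|C_{z 0}| ≤ m` the other points avoid it with probability at least
`1 - k m / L^d`. -/
theorem short_of_klaw {d : ℕ} (hd : 1 ≤ d) {T : ℕ → Set ℝ} (hT : ∀ L, ∀ t ∈ T L, (0 : ℝ) ≤ t)
    (hK : TN.KLaw d T) (ε : ℝ) (hε : 0 < ε) :
    ∃ δ : ℝ, 0 < δ ∧ ∃ L₀ : ℕ, ∀ (L : ℕ) [NeZero L], L₀ ≤ L → ∀ t ∈ T L,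
      ∀ (x : Fin d → ZMod L) (m : ℕ), (m : ℝ) ≤ δ * (L : ℝ) ^ d → pShort d L t x m ≤ ε := by
  classical
  obtain ⟨k, hk⟩ := exists_nat_gt (4 / ε)
  have hk0 : (0 : ℝ) < k := lt_trans (by positivity) hk
  have hkN : 0 < k := by exact_mod_cast hk0
  set K : ℝ := ((k + 1).factorial : ℝ) + ((k + 1 : ℕ) : ℝ) ^ 2 with hKdef
  have hK0 : 0 < K := by positivity
  set η : ℝ := ε / (4 * K) with hη
  have hη0 : 0 < η := by positivity
  obtain ⟨L₀, hL₀⟩ := hK (k + 1) η hη0
  refine ⟨1 / (2 * k), by positivity, L₀, ?_⟩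
  intro L _ hL t ht x m hm
  obtain ⟨near, hrefl, hcard, hlaw⟩ := hL₀ L hL t ht
  have ht0 := hT L t ht
  set n : ℝ := (Fintype.card (Fin d → ZMod L) : ℝ) with hn
  have hn0 : (0 : ℝ) < n := by
    rw [hn]
    exact_mod_cast Fintype.card_pos
  have hnL : n = (L : ℝ) ^ d := by
    rw [hn, Fintype.card_fun, ZMod.card, Fintype.card_fin]
    push_cast
    rfl
  rw [← hnL] at hm
  -- the good points
  have hgood : ∀ z : Fin (k + 1) → (Fin d → ZMod L), (∀ a b, a ≠ b → ¬ near (z a) (z b)) →
      expect d L t (fun σ => alone σ z) ≤ 1 / (k + 1 : ℝ) + ((k + 1).factorial : ℝ) * η := by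
    intro z hz
    have e1 : (fun σ : Equiv.Perm (Fin d → ZMod L) => alone σ z) = fun σ =>
        ∑ τ : Equiv.Perm (Fin (k + 1)), (if τ 0 = 0 then (1 : ℝ) else 0) * patW τ σ z := by
      funext σ
      exact alone_eq σ z
    rw [e1, expect_sum]
    have e2 : ∀ τ : Equiv.Perm (Fin (k + 1)),
        expect d L t (fun σ => (if τ 0 = 0 then (1 : ℝ) else 0) * patW τ σ z) ≤
          (if τ 0 = 0 then (1 : ℝ) else 0) * (1 / ((k + 1).factorial : ℝ)) + η := by
      intro τ
      rw [expect_smul]
      have e3 : expect d L t (fun σ => patW τ σ z) =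
          ((relCl τ).card : ℝ)⁻¹ * expect d L t (fun σ => patI τ σ z) := by
        unfold patW
        rw [expect_smul]
      have e4 := (abs_le.mp (hlaw z hz τ)).2
      have e5 : (1 : ℝ) ≤ (relCl τ).card := by
        have h := relCl_card_pos τ
        have h' : 0 < (relCl τ).card := by exact_mod_cast h
        exact_mod_cast h'
      have e6 : expect d L t (fun σ => patW τ σ z) ≤ 1 / ((k + 1).factorial : ℝ) + η := by
        rw [e3]
        have e7 : expect d L t (fun σ => patI τ σ z) ≤
            (relCl τ).card / ((k + 1).factorial : ℝ) + η := by linarith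
        have e8 : ((relCl τ).card : ℝ)⁻¹ * ((relCl τ).card / ((k + 1).factorial : ℝ) + η) ≤
            1 / ((k + 1).factorial : ℝ) + η := by
          rw [mul_add]
          have e9 : ((relCl τ).card : ℝ)⁻¹ * ((relCl τ).card / ((k + 1).factorial : ℝ)) =
              1 / ((k + 1).factorial : ℝ) := by
            have : ((relCl τ).card : ℝ) ≠ 0 := by positivity
            field_simp
          rw [e9]
          have e10 : ((relCl τ).card : ℝ)⁻¹ ≤ 1 := inv_le_one_of_one_le₀ e5
          nlinarith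
        exact (mul_le_mul_of_nonneg_left e7 (by positivity)).trans e8
      split_ifs
      · rw [one_mul, one_mul]
        exact e6
      · rw [zero_mul, zero_mul, zero_add]
        exact hη0.le
    refine (Finset.sum_le_sum fun τ _ => e2 τ).trans ?_
    rw [Finset.sum_add_distrib, ← Finset.sum_mul, sum_fix, Finset.sum_const, Finset.card_univ,
      Fintype.card_perm, Fintype.card_fin, nsmul_eq_mul]
    refine add_le_add (le_of_eq ?_) le_rfl
    rw [Nat.factorial_succ]
    have : ((k.factorial : ℕ) : ℝ) ≠ 0 := by positivity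
    push_cast
    field_simp
  have hbad : ∀ z : Fin (k + 1) → (Fin d → ZMod L), expect d L t (fun σ => alone σ z) ≤ 1 := by
    intro z
    rw [← expect_const (d := d) (L := L) t 1]
    exact expect_mono ht0 fun σ => alone_le σ z
  -- the sum
  set B : Finset (Fin (k + 1) → (Fin d → ZMod L)) :=
    univ.filter fun z => ¬ ∀ a b, a ≠ b → ¬ near (z a) (z b) with hB
  have hBc : (B.card : ℝ) ≤ ((k + 1 : ℕ) : ℝ) ^ 2 * (η * n ^ (k + 1)) := by
    have h := TN.card_bad (ι := Fin (k + 1)) hη0.le hcard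
    rw [Fintype.card_fin] at h
    convert! h
  have hsum : ∑ z : Fin (k + 1) → (Fin d → ZMod L), expect d L t (fun σ => alone σ z) ≤
      n ^ (k + 1) * (1 / (k + 1 : ℝ) + K * η) := by
    have h1 : ∀ z : Fin (k + 1) → (Fin d → ZMod L), expect d L t (fun σ => alone σ z) ≤
        (1 / (k + 1 : ℝ) + ((k + 1).factorial : ℝ) * η) + if z ∈ B then (1 : ℝ) else 0 := by
      intro z
      by_cases hz : z ∈ B
      · rw [if_pos hz]
        have h2 : 0 ≤ 1 / (k + 1 : ℝ) + ((k + 1).factorial : ℝ) * η := by positivity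
        linarith [hbad z]
      · rw [if_neg hz, add_zero]
        refine hgood z ?_
        by_contra h2
        exact hz (Finset.mem_filter.mpr ⟨Finset.mem_univ _, h2⟩)
    refine (Finset.sum_le_sum fun z _ => h1 z).trans ?_
    rw [Finset.sum_add_distrib, Finset.sum_const, Finset.card_univ, Fintype.card_fun,
      Fintype.card_fin, nsmul_eq_mul, Finset.sum_ite_mem, Finset.univ_inter, Finset.sum_const,
      nsmul_eq_mul, mul_one]
    have h3 : ((Fintype.card (Fin d → ZMod L) ^ (k + 1) : ℕ) : ℝ) = n ^ (k + 1) := by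
      push_cast
      rfl
    rw [h3]
    have h4 : n ^ (k + 1) * (1 / (k + 1 : ℝ) + K * η) =
        n ^ (k + 1) * (1 / (k + 1 : ℝ) + ((k + 1).factorial : ℝ) * η) +
          ((k + 1 : ℕ) : ℝ) ^ 2 * (η * n ^ (k + 1)) := by
      rw [hKdef]
      ring
    rw [h4]
    linarith
  -- the lower bound
  have hmn : (m : ℝ) ≤ n := by
    refine hm.trans ?_
    have h1 : 1 / (2 * (k : ℝ)) ≤ 1 := by
      rw [div_le_one (by positivity)]
      have : (1 : ℝ) ≤ k := by exact_mod_cast hkN
      linarith
    nlinarith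
  have hlow : n * (n - m) ^ k * pShort d L t x m ≤
      ∑ z : Fin (k + 1) → (Fin d → ZMod L), expect d L t (fun σ => alone σ z) := by
    rw [← expect_sum]
    have h1 : (fun σ : Equiv.Perm (Fin d → ZMod L) => ∑ z : Fin (k + 1) → (Fin d → ZMod L), alone σ z) = fun σ =>
        ∑ y, (n - ((cyc σ y).card : ℝ)) ^ k := by
      funext σ
      exact sum_alone σ k
    rw [h1, expect_sum]
    have h2 : ∀ y : (Fin d → ZMod L), (n - m) ^ k * pShort d L t x m ≤
        expect d L t (fun σ => (n - ((cyc σ y).card : ℝ)) ^ k) := by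
      intro y
      rw [pShort_eq t x y m]
      unfold pShort
      rw [← expect_smul]
      refine expect_mono ht0 fun σ => ?_
      have h3 : ((cyc σ y).card : ℝ) ≤ n := by
        rw [hn]
        exact_mod_cast Finset.card_le_univ _
      split_ifs with h4
      · rw [mul_one]
        have h5 : ((cyc σ y).card : ℝ) ≤ m := by exact_mod_cast h4
        exact pow_le_pow_left₀ (by linarith) (by linarith) k
      · rw [mul_zero]
        exact pow_nonneg (by linarith) k
    have h6 := Finset.sum_le_sum fun (y : (Fin d → ZMod L)) (_ : y ∈ (univ : Finset (Fin d → ZMod L))) => h2 y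
    rw [Finset.sum_const, Finset.card_univ, nsmul_eq_mul] at h6
    rw [mul_assoc]
    exact h6
  have hP0 : 0 ≤ pShort d L t x m := by
    have h1 : expect d L t (fun _ => (0 : ℝ)) ≤ pShort d L t x m := by
      unfold pShort
      refine expect_mono ht0 fun σ => ?_
      split_ifs
      · exact zero_le_one
      · exact le_rfl
    rw [expect_const] at h1
    exact h1
  -- Bernoulli
  have hbern : n ^ k / 2 ≤ (n - m) ^ k := by
    have h1 : 1 + (k : ℝ) * (-(m / n)) ≤ (1 + -(m / n)) ^ k := by
      refine one_add_mul_le_pow ?_ k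
      have : (m : ℝ) / n ≤ 1 := (div_le_one hn0).mpr hmn
      linarith
    have h2 : (k : ℝ) * (m / n) ≤ 1 / 2 := by
      rw [← mul_div_assoc, div_le_iff₀ hn0]
      calc (k : ℝ) * m ≤ k * (1 / (2 * k) * n) := mul_le_mul_of_nonneg_left hm hk0.le
        _ = 1 / 2 * n := by field_simp
    have h3 : (n - m) = n * (1 + -(m / n)) := by
      field_simp
      ring
    rw [h3, mul_pow]
    have h4 : (1 : ℝ) / 2 ≤ (1 + -(m / n)) ^ k := by linarith
    have h5 : 0 < n ^ k := by positivity
    nlinarith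
  have hfin : n * (n ^ k / 2) * pShort d L t x m ≤ n ^ (k + 1) * (1 / (k + 1 : ℝ) + K * η) := by
    refine le_trans ?_ (hlow.trans hsum)
    exact mul_le_mul_of_nonneg_right (mul_le_mul_of_nonneg_left hbern hn0.le) hP0
  have h1 : n * (n ^ k / 2) * pShort d L t x m = n ^ (k + 1) * (pShort d L t x m / 2) := by ring
  rw [h1] at hfin
  have h2 := le_of_mul_le_mul_left hfin (by positivity : (0 : ℝ) < n ^ (k + 1))
  have h3 : K * η = ε / 4 := by
    rw [hη]
    field_simp
  have h4 : 1 / (k + 1 : ℝ) ≤ ε / 4 := by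
    rw [div_le_div_iff₀ (by positivity) (by norm_num)]
    have h5 := (div_lt_iff₀ hε).mp hk
    nlinarith
  rw [h3] at h2
  linarith

end Pool.Agent.Stirring.FT
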