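import Pool.Agent.Lib.MP_6c3d62_pr.FT.D

/-! ROW B (helper10). The box in the torus. -/

set_option autoImplicit false
set_option linter.unusedSectionVars false

open Finset

namespace Pool.Agent.Stirring.FT

open Hier QK

theorem kap_nonneg (d n : ℕ) (p : Bx d n × Bx d n) : 0 ≤ kap d n p := by
  unfold kap
  exact Finset.sum_nonneg fun i _ => by split_ifs <;> norm_num

theorem cbox_nonneg {d n L : ℕ} (p : (Fin d → ZMod L) × (Fin d → ZMod L)) : 0 ≤ cbox d n L p := by
  unfold cbox
  refine Finset.sum_nonneg fun q _ => ?_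
  split_ifs
  · exact kap_nonneg d n q
  · exact le_refl _

theorem cbox_emb {d n L : ℕ} (h : n ≤ L) (q : Bx d n × Bx d n) :
    cbox d n L (iot d n L q.1, iot d n L q.2) = kap d n q := by
  unfold cbox
  rw [Finset.sum_eq_single q]
  · rw [if_pos rfl]
  · intro b _ hb
    rw [if_neg]
    intro he
    have h1 := congrArg Prod.fst he
    have h2 := congrArg Prod.snd he
    exact hb (Prod.ext (iot_inj h h1.symm) (iot_inj h h2.symm))
  · intro hq
    exact absurd (Finset.mem_univ q) hq

theorem cbox_out {d n L : ℕ} (p : (Fin d → ZMod L) × (Fin d → ZMod L))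
    (hp : ∀ q : Bx d n × Bx d n, p ≠ (iot d n L q.1, iot d n L q.2)) : cbox d n L p = 0 := by
  unfold cbox
  exact Finset.sum_eq_zero fun q _ => if_neg (hp q)

theorem iot_nx {d n L : ℕ} {u v : Bx d n} {i : Fin d}
    (h : (v i : ℕ) = u i + 1 ∧ ∀ j, j ≠ i → v j = u j) :
    iot d n L v = iot d n L u + Pi.single i 1 := by
  funext j
  rw [Pi.add_apply]
  by_cases hj : j = i
  · subst hj
    rw [Pi.single_eq_same]
    show (((v j : ℕ)) : ZMod L) = (((u j : ℕ)) : ZMod L) + 1
    rw [h.1]
    push_cast
    ring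
  · rw [Pi.single_eq_of_ne hj, add_zero]
    show (((v j : ℕ)) : ZMod L) = (((u j : ℕ)) : ZMod L)
    rw [h.2 j hj]

theorem kap_le {d n L : ℕ} [NeZero L] (q : Bx d n × Bx d n) :
    kap d n q ≤ tr d L (iot d n L q.1, iot d n L q.2) := by
  unfold kap tr
  refine Finset.sum_le_sum fun i _ => ?_
  by_cases h1 : (q.2 i : ℕ) = q.1 i + 1 ∧ ∀ j, j ≠ i → q.2 j = q.1 j
  · rw [if_pos h1, if_pos (iot_nx h1)]
  · rw [if_neg h1]
    split_ifs <;> norm_num

theorem cbox_le {d n L : ℕ} [NeZero L] (h : n ≤ L) (p : (Fin d → ZMod L) × (Fin d → ZMod L)) :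
    cbox d n L p ≤ tr d L p := by
  by_cases hp : ∃ q : Bx d n × Bx d n, p = (iot d n L q.1, iot d n L q.2)
  · obtain ⟨q, rfl⟩ := hp
    rw [cbox_emb h]
    exact kap_le q
  · push Not at hp
    rw [cbox_out p hp]
    exact tr_nonneg p

/-- The removed rates at a point: at most `2 d`. -/
theorem rem_le {d n L : ℕ} [NeZero L] (h : n ≤ L) (x : Fin d → ZMod L) :
    rem (tr d L) (cbox d n L) x ≤ 2 * d := by
  have _ := h
  have h1 : rem (tr d L) (cbox d n L) x ≤ ∑ p : (Fin d → ZMod L) × (Fin d → ZMod L),
      tr d L p * ((if x = p.1 then (1 : ℝ) else 0) + (if x = p.2 then (1 : ℝ) else 0)) := by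
    unfold rem
    refine Finset.sum_le_sum fun p _ => ?_
    refine mul_le_mul_of_nonneg_right (by linarith [cbox_nonneg (n := n) p]) ?_
    split_ifs <;> norm_num
  refine h1.trans (le_of_eq ?_)
  have h2 := sum_trG (fun i : Fin d => (Pi.single i 1 : Fin d → ZMod L))
    (fun a b => (if x = a then (1 : ℝ) else 0) + (if x = b then (1 : ℝ) else 0))
  rw [tr_eq]
  refine h2.trans ?_
  have h3 : ∀ i : Fin d, ∑ y : Fin d → ZMod L, ((if x = y then (1 : ℝ) else 0) +
      (if x = y + Pi.single i 1 then (1 : ℝ) else 0)) = 2 := by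
    intro i
    rw [Finset.sum_add_distrib, Finset.sum_ite_eq, if_pos (Finset.mem_univ _)]
    have h4 : ∀ y : Fin d → ZMod L, (if x = y + Pi.single i 1 then (1 : ℝ) else 0) =
        (if x - Pi.single i 1 = y then (1 : ℝ) else 0) := by
      intro y
      have h5 : (x = y + Pi.single i 1) ↔ (x - Pi.single i 1 = y) := by
        constructor
        · intro h6
          rw [h6, add_sub_cancel_right]
        · intro h6
          rw [← h6, sub_add_cancel]
      by_cases h6 : x = y + Pi.single i 1
      · rw [if_pos h6, if_pos (h5.1 h6)]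
      · rw [if_neg h6, if_neg fun h7 => h6 (h5.2 h7)]
    rw [Finset.sum_congr rfl fun y _ => h4 y, Finset.sum_ite_eq, if_pos (Finset.mem_univ _)]
    norm_num
  rw [Finset.sum_congr rfl fun i _ => h3 i]
  rw [Finset.sum_const, Finset.card_univ, Fintype.card_fin, nsmul_eq_mul]
  ring

/-- Nothing is removed at the interior points of the box. -/
theorem rem_zero {d n L : ℕ} [NeZero L] (h : n ≤ L) (u : Bx d n)
    (hu : ∀ i, 1 ≤ (u i : ℕ) ∧ (u i : ℕ) + 1 < n) :
    rem (tr d L) (cbox d n L) (iot d n L u) = 0 := by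
  -- the neighbours in the box
  have hup : ∀ i, ∃ v : Bx d n, (v i : ℕ) = u i + 1 ∧ ∀ j, j ≠ i → v j = u j := by
    intro i
    refine ⟨Function.update u i ⟨u i + 1, (hu i).2⟩, ?_, fun j hj => ?_⟩
    · rw [Function.update_self]
    · rw [Function.update_of_ne hj]
  have hdn : ∀ i, ∃ v : Bx d n, (u i : ℕ) = v i + 1 ∧ ∀ j, j ≠ i → u j = v j := by
    intro i
    refine ⟨Function.update u i ⟨u i - 1, by have := (u i).2; omega⟩, ?_, fun j hj => ?_⟩
    · rw [Function.update_self]
      have := (hu i).1
      show (u i : ℕ) = (u i : ℕ) - 1 + 1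
      omega
    · rw [Function.update_of_ne hj]
  -- an edge at `u` is an edge of the box
  have key : ∀ p : (Fin d → ZMod L) × (Fin d → ZMod L), (iot d n L u = p.1 ∨ iot d n L u = p.2) →
      tr d L p = cbox d n L p := by
    intro p hp
    by_cases hz : ∃ i, p.2 = p.1 + Pi.single i 1
    · obtain ⟨i, hi⟩ := hz
      -- both ends are in the box
      obtain ⟨q, hq, hqu⟩ : ∃ q : Bx d n × Bx d n, p = (iot d n L q.1, iot d n L q.2) ∧
          (q.1 = u ∨ q.2 = u) := by
        rcases hp with hp | hp
        · obtain ⟨v, hv⟩ := hup i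
          refine ⟨(u, v), ?_, Or.inl rfl⟩
          refine Prod.ext hp.symm ?_
          show p.2 = iot d n L v
          rw [hi, ← hp, iot_nx hv]
        · obtain ⟨v, hv⟩ := hdn i
          refine ⟨(v, u), ?_, Or.inr rfl⟩
          refine Prod.ext ?_ hp.symm
          show p.1 = iot d n L v
          have h1 : iot d n L u = iot d n L v + Pi.single i 1 := iot_nx hv
          rw [hp, hi] at h1
          exact add_right_cancel h1
      subst hq
      rw [cbox_emb h]
      unfold tr kap
      refine Finset.sum_congr rfl fun j _ => ?_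
      by_cases h1 : (q.2 j : ℕ) = q.1 j + 1 ∧ ∀ k, k ≠ j → q.2 k = q.1 k
      · rw [if_pos h1, if_pos (iot_nx h1)]
      · rw [if_neg h1, if_neg]
        intro h2
        apply h1
        rcases hqu with h3 | h3
        · obtain ⟨v, hv⟩ := hup j
          have h4 : iot d n L v = iot d n L q.2 := by
            rw [iot_nx hv, ← h3]
            exact h2.symm
          have h5 := iot_inj h h4
          rw [← h5, h3]
          exact hv
        · obtain ⟨v, hv⟩ := hdn j
          have h4 : iot d n L v = iot d n L q.1 := by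
            have h6 : iot d n L u = iot d n L v + Pi.single j 1 := iot_nx hv
            have h7 : iot d n L q.2 = iot d n L q.1 + Pi.single j 1 := h2
            rw [h3, h6] at h7
            exact add_right_cancel h7
          have h5 := iot_inj h h4
          rw [← h5, h3]
          exact hv
    · push Not at hz
      have h1 : tr d L p = 0 := by
        unfold tr
        exact Finset.sum_eq_zero fun i _ => if_neg (hz i)
      have h2 := cbox_le h p
      have h3 := cbox_nonneg (n := n) p
      rw [h1] at h2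
      rw [h1]
      linarith
  unfold rem
  refine Finset.sum_eq_zero fun p _ => ?_
  by_cases hp : iot d n L u = p.1 ∨ iot d n L u = p.2
  · rw [key p hp, sub_self, zero_mul]
  · push Not at hp
    rw [if_neg hp.1, if_neg hp.2, add_zero, mul_zero]

/-- Conjugation of a swap by the embedding. -/
theorem via_mul_swap {d n L : ℕ} (h : n ≤ L) (σ : Equiv.Perm (Bx d n)) (u u' : Bx d n) :
    (σ * Equiv.swap u u').viaEmbedding (emb (d := d) h) =
      σ.viaEmbedding (emb h) * Equiv.swap (iot d n L u) (iot d n L u') := by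
  refine Equiv.ext fun x => ?_
  rw [Equiv.Perm.mul_apply]
  by_cases hx : x ∈ Set.range (emb (d := d) h)
  · obtain ⟨v, rfl⟩ := hx
    have h1 : Equiv.swap (iot d n L u) (iot d n L u') (emb (d := d) h v) =
        emb (d := d) h (Equiv.swap u u' v) := by
      exact (Function.Injective.swap_apply (iot_inj h) u u' v)
    rw [h1, Equiv.Perm.viaEmbedding_apply, Equiv.Perm.viaEmbedding_apply, Equiv.Perm.mul_apply]
  · have h1 : Equiv.swap (iot d n L u) (iot d n L u') x = x := by
      refine Equiv.swap_apply_of_ne_of_ne ?_ ?_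
      · intro h2
        exact hx ⟨u, h2.symm⟩
      · intro h2
        exact hx ⟨u', h2.symm⟩
    rw [h1, Equiv.Perm.viaEmbedding_apply_of_notMem _ _ _ hx,
      Equiv.Perm.viaEmbedding_apply_of_notMem _ _ _ hx]

/-- Restriction to the permutations of the box. -/
noncomputable def resT {d n L : ℕ} [NeZero L] (h : n ≤ L) :
    Fn (Fin d → ZMod L) →L[ℝ] Fn (Bx d n) :=
  LinearMap.toContinuousLinearMap
    { toFun := fun f => fun τ : Equiv.Perm (Bx d n) => f (τ.viaEmbedding (emb h))
      map_add' := fun _ _ => rfl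
      map_smul' := fun _ _ => rfl }

theorem resT_apply {d n L : ℕ} [NeZero L] (h : n ≤ L) (f : Fn (Fin d → ZMod L))
    (τ : Equiv.Perm (Bx d n)) : resT h f τ = f (τ.viaEmbedding (emb h)) := rfl

theorem via_one {d n L : ℕ} (h : n ≤ L) :
    (1 : Equiv.Perm (Bx d n)).viaEmbedding (emb (d := d) h) =
      (1 : Equiv.Perm (Fin d → ZMod L)) := by
  rw [← Equiv.Perm.viaEmbeddingHom_apply, map_one]

/-- The process on the edges of the box does not see the torus (use `QK.exp_intertwine` with
`T f = fun τ => f (τ.viaEmbedding (emb h))`, as in `QK.sg_one'`). -/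
theorem sg_cbox {d n L : ℕ} [NeZero L] (h : n ≤ L) (t : ℝ)
    (f : Equiv.Perm (Fin d → ZMod L) → ℝ) :
    sg (cbox d n L) t f 1 =
      sg (kap d n) t (fun τ : Equiv.Perm (Bx d n) => f (τ.viaEmbedding (emb h))) 1 := by
  have hg : ∀ g : Fn (Fin d → ZMod L), resT h (gen (cbox d n L) g) =
      gen (kap d n) (resT h g) := by
    intro g
    funext τ
    rw [resT_apply, gen_apply, gen_apply]
    unfold cbox
    simp only [Finset.sum_mul]
    rw [Finset.sum_comm]
    refine Finset.sum_congr rfl fun q _ => ?_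
    simp only [ite_mul, zero_mul]
    rw [Finset.sum_ite_eq', if_pos (Finset.mem_univ _)]
    rw [resT_apply, resT_apply, via_mul_swap]
  have h2 := exp_intertwine (A := gen (cbox d n L)) (B := gen (kap d n)) (T := resT h) hg t f
  have h3 := congrFun h2 1
  rw [resT_apply, via_one] at h3
  exact h3

end Pool.Agent.Stirring.FT
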