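import Pool.Agent.Lib.MP_6c3d62_pr.FT.Speed
import Pool.Agent.Lib.MP_6c3d62_pr.Mg.G086

/-! Fixed times: definitions. The box `{0, …, n-1}^d`, seen in every torus of side at least `n`. -/

set_option autoImplicit false
set_option linter.unusedSectionVars false

open Finset

namespace Pool.Agent.Stirring.FT

open Hier QK

/-- The box `{0, …, n - 1}^d`. -/
abbrev Bx (d n : ℕ) := Fin d → Fin n

/-- Rates of the box: an edge from `u` to `u + e_i`, without wrapping around. -/
noncomputable def kap (d n : ℕ) : Bx d n × Bx d n → ℝ := fun p =>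
  ∑ i : Fin d, if (p.2 i : ℕ) = p.1 i + 1 ∧ ∀ j, j ≠ i → p.2 j = p.1 j then 1 else 0

/-- The box in the torus. -/
def iot (d n L : ℕ) (u : Bx d n) : Fin d → ZMod L := fun i => ((u i : ℕ) : ZMod L)

theorem iot_inj {d n L : ℕ} (h : n ≤ L) : Function.Injective (iot d n L) := by
  intro u u' huu
  funext i
  have h1 := congrFun huu i
  simp only [iot] at h1
  rw [ZMod.natCast_eq_natCast_iff] at h1
  have h2 := Nat.ModEq.eq_of_lt_of_lt h1 (lt_of_lt_of_le (u i).2 h) (lt_of_lt_of_le (u' i).2 h)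
  exact Fin.ext h2

/-- The box in the torus, as an embedding. -/
def emb {d n L : ℕ} (h : n ≤ L) : Bx d n ↪ (Fin d → ZMod L) := ⟨iot d n L, iot_inj h⟩

/-- The rates of the edges inside the box, on the torus. -/
noncomputable def cbox (d n L : ℕ) : (Fin d → ZMod L) × (Fin d → ZMod L) → ℝ := fun p =>
  ∑ q : Bx d n × Bx d n, if p = (iot d n L q.1, iot d n L q.2) then kap d n q else 0

/-- `x` lies on a cycle of length at most `m` of `σ⁻¹` all of whose points are in `A`. -/
def shortIn {V : Type*} (A : Finset V) (m : ℕ) (x : V) (σ : Equiv.Perm V) : Prop :=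
  ∃ k, 1 ≤ k ∧ k ≤ m ∧ (σ⁻¹ ^ k) x = x ∧ ∀ j, j < k → (σ⁻¹ ^ j) x ∈ A

/-- The probability that the cycle of `x` has at most `m` vertices. -/
noncomputable def pShort (d L : ℕ) [NeZero L] (t : ℝ) (x : Fin d → ZMod L) (m : ℕ) : ℝ :=
  expect d L t (fun σ => if (cyc σ x).card ≤ m then (1 : ℝ) else 0)

end Pool.Agent.Stirring.FT
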