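import Pool.Agent.Lib.MP_6c3d62_pr.FT.Transfer

/-! The numerics: from `short_of_klaw` and `transfer` to the final statement. -/

set_option autoImplicit false
set_option linter.unusedSectionVars false

open Finset

namespace Pool.Agent.Stirring.FT

open Hier QK

section Numerics

open Filter Topology

/-- The powers used in the proof are large. -/
theorem num_rpow {c : ℝ} (hc : 0 < c) (B : ℝ) : ∀ᶠ t : ℝ in atTop, B ≤ t ^ c :=
  (tendsto_rpow_atTop hc).eventually_ge_atTop B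

theorem num_log {c : ℝ} (hc : 0 < c) : ∀ᶠ t : ℝ in atTop, t ≤ Real.exp (t ^ c) := by
  have h1 := (isLittleO_log_rpow_atTop hc).bound (c := 1) one_pos
  filter_upwards [h1, eventually_ge_atTop (1 : ℝ)] with t h2 h3
  have h4 : Real.log t ≤ t ^ c := by
    rw [one_mul, Real.norm_of_nonneg (Real.log_nonneg h3),
      Real.norm_of_nonneg (Real.rpow_nonneg (by linarith) _)] at h2
    exact h2
  calc t = Real.exp (Real.log t) := (Real.exp_log (by linarith)).symm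
    _ ≤ Real.exp (t ^ c) := Real.exp_le_exp.2 h4

theorem num_lin {c : ℝ} (hc : c < 1) {η : ℝ} (hη : 0 < η) :
    ∀ᶠ t : ℝ in atTop, t ^ c ≤ η * t := by
  have h1 := (tendsto_rpow_atTop (sub_pos.2 hc)).eventually_ge_atTop (1 / η)
  filter_upwards [h1, eventually_ge_atTop (1 : ℝ)] with t h2 h3
  have h4 : t ^ c * t ^ (1 - c) = t := by
    rw [← Real.rpow_add (by linarith), add_sub_cancel, Real.rpow_one]
  have h5 : 0 < t ^ c := Real.rpow_pos_of_pos (by linarith) _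
  have h6 : 1 ≤ η * t ^ (1 - c) := by
    rw [div_le_iff₀ hη] at h2
    linarith
  calc t ^ c = t ^ c * 1 := (mul_one _).symm
    _ ≤ t ^ c * (η * t ^ (1 - c)) := mul_le_mul_of_nonneg_left h6 h5.le
    _ = η * (t ^ c * t ^ (1 - c)) := by ring
    _ = η * t := by rw [h4]

theorem num_exp (B : ℝ) {η : ℝ} (hη : 0 < η) :
    ∀ᶠ t : ℝ in atTop, B * Real.exp (-(t / 2)) ≤ η := by
  have h1 : Tendsto (fun t : ℝ => B * Real.exp (-(t / 2))) atTop (𝓝 (B * 0)) := by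
    refine Tendsto.const_mul B ?_
    exact Real.tendsto_exp_neg_atTop_nhds_zero.comp (tendsto_id.atTop_div_const (by norm_num))
  rw [mul_zero] at h1
  exact (h1.eventually_lt_const hη).mono fun t ht => ht.le

/-- The side of the smaller torus is large enough. -/
theorem num_side {c : ℝ} {t : ℝ} (ht : 1 ≤ t) (h6 : 6 ≤ t ^ c)
    (hlog : t ≤ Real.exp (t ^ c)) :
    2 * (⌊Real.exp (t ^ c)⌋₊ * ⌈4 * t⌉₊ + ⌈4 * t⌉₊ + 2) ≤ ⌊Real.exp (t ^ (2 * c))⌋₊ := by
  have h1 : t ^ (2 * c) = t ^ c * t ^ c := by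
    rw [← Real.rpow_add (by linarith), two_mul]
  set u := t ^ c with hu
  rw [h1]
  have h2 : (⌊Real.exp u⌋₊ : ℝ) ≤ Real.exp u := Nat.floor_le (Real.exp_pos _).le
  have h3 : (⌈4 * t⌉₊ : ℝ) ≤ 5 * Real.exp u := by
    have := (Nat.ceil_lt_add_one (by linarith : (0 : ℝ) ≤ 4 * t)).le
    linarith
  have h4 : 1 ≤ Real.exp u := Real.one_le_exp (by linarith)
  refine Nat.le_floor ?_
  push_cast
  have h5 : (⌊Real.exp u⌋₊ : ℝ) * (⌈4 * t⌉₊ : ℝ) ≤ Real.exp u * (5 * Real.exp u) :=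
    mul_le_mul h2 h3 (by positivity) (by positivity)
  have h7 : (24 : ℝ) ≤ Real.exp 6 := by
    have := Real.quadratic_le_exp_of_nonneg (x := 6) (by norm_num)
    nlinarith [Real.add_one_le_exp (3 : ℝ), Real.exp_pos 3, Real.exp_add 3 3]
  have h8 : Real.exp u * Real.exp u * Real.exp 6 ≤ Real.exp (u * u) := by
    rw [← Real.exp_add, ← Real.exp_add]
    refine Real.exp_le_exp.2 ?_
    nlinarith
  have h9 : 24 * (Real.exp u * Real.exp u) ≤ Real.exp (u * u) := by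
    refine le_trans ?_ h8
    nlinarith [Real.exp_pos u, mul_pos (Real.exp_pos u) (Real.exp_pos u)]
  nlinarith [mul_le_mul h4 h4 zero_le_one (by positivity : (0 : ℝ) ≤ Real.exp u)]

/-- The error of the transfer is small. -/
theorem num_err {d : ℕ} {c t η : ℝ} (ht : 1 ≤ t) (hlog : t ≤ Real.exp (t ^ c))
    (h0 : 0 ≤ t ^ c)
    (hlin : t ^ c ≤ (1 / (8 * ((d : ℝ) + 1))) * t) (hd : 12 * (d : ℝ) ≤ t)
    (hη : (8 * (d : ℝ) ^ 2 + 2 * d) * Real.exp (-(t / 2)) ≤ η) :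
    (2 * (⌊Real.exp (t ^ c)⌋₊ : ℝ) * (⌈4 * t⌉₊ : ℕ) + 1) ^ d *
      ((8 * (d : ℝ) ^ 2 * t + 2 * d) * Real.exp (2 * t - (⌈4 * t⌉₊ : ℕ))) ≤ η := by
  set u := t ^ c with hu
  have h2 : (⌊Real.exp u⌋₊ : ℝ) ≤ Real.exp u := Nat.floor_le (Real.exp_pos _).le
  have h3 : (⌈4 * t⌉₊ : ℝ) ≤ 5 * Real.exp u := by
    have := (Nat.ceil_lt_add_one (by linarith : (0 : ℝ) ≤ 4 * t)).le
    linarith
  have h4 : 1 ≤ Real.exp u := Real.one_le_exp h0
  have h5 : (⌊Real.exp u⌋₊ : ℝ) * (⌈4 * t⌉₊ : ℝ) ≤ Real.exp u * (5 * Real.exp u) :=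
    mul_le_mul h2 h3 (by positivity) (by positivity)
  have h6 : (11 : ℝ) ≤ Real.exp 3 := by
    have e1 : Real.exp 3 = Real.exp 1 * Real.exp 1 * Real.exp 1 := by
      rw [← Real.exp_add, ← Real.exp_add]; norm_num
    have e2 : (2.7 : ℝ) < Real.exp 1 := lt_trans (by norm_num) Real.exp_one_gt_d9
    rw [e1]
    nlinarith [mul_pos (Real.exp_pos 1) (Real.exp_pos 1)]
  have h7 : 2 * (⌊Real.exp u⌋₊ : ℝ) * (⌈4 * t⌉₊ : ℕ) + 1 ≤ Real.exp (2 * u + 3) := by
    have e1 : Real.exp (2 * u + 3) = Real.exp u * Real.exp u * Real.exp 3 := by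
      rw [← Real.exp_add, ← Real.exp_add]; ring_nf
    rw [e1]
    nlinarith [mul_le_mul h4 h4 zero_le_one (by positivity : (0 : ℝ) ≤ Real.exp u),
      mul_pos (Real.exp_pos u) (Real.exp_pos u)]
  have h8 : (2 * (⌊Real.exp u⌋₊ : ℝ) * (⌈4 * t⌉₊ : ℕ) + 1) ^ d ≤ Real.exp (t / 2) := by
    calc (2 * (⌊Real.exp u⌋₊ : ℝ) * (⌈4 * t⌉₊ : ℕ) + 1) ^ d ≤ Real.exp (2 * u + 3) ^ d :=
          pow_le_pow_left₀ (by positivity) h7 d
      _ = Real.exp (d * (2 * u + 3)) := by rw [← Real.exp_nat_mul]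
      _ ≤ Real.exp (t / 2) := by
          refine Real.exp_le_exp.2 ?_
          have hd0 : (0 : ℝ) ≤ d := Nat.cast_nonneg d
          have e2 : (d : ℝ) * u ≤ t / 8 := by
            have e3 : (d : ℝ) * u ≤ ((d : ℝ) + 1) * ((1 / (8 * ((d : ℝ) + 1))) * t) :=
              mul_le_mul (by linarith) hlin h0 (by linarith)
            have e4 : ((d : ℝ) + 1) * ((1 / (8 * ((d : ℝ) + 1))) * t) = t / 8 := by
              have : ((d : ℝ) + 1) ≠ 0 := by positivity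
              field_simp
            linarith
          nlinarith
  have h9 : Real.exp (2 * t - (⌈4 * t⌉₊ : ℕ)) ≤ Real.exp (-(2 * t)) := by
    refine Real.exp_le_exp.2 ?_
    have := Nat.le_ceil (4 * t)
    linarith
  have h10 : (8 * (d : ℝ) ^ 2 * t + 2 * d) ≤ (8 * (d : ℝ) ^ 2 + 2 * d) * Real.exp t := by
    have e1 : t ≤ Real.exp t := by
      have := Real.add_one_le_exp t
      linarith
    have e2 : 1 ≤ Real.exp t := Real.one_le_exp (by linarith)
    have hd0 : (0 : ℝ) ≤ d := Nat.cast_nonneg d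
    nlinarith [mul_nonneg (sq_nonneg (d : ℝ)) (sub_nonneg.2 e1), mul_nonneg hd0 (sub_nonneg.2 e2)]
  calc _ ≤ Real.exp (t / 2) * (((8 * (d : ℝ) ^ 2 + 2 * d) * Real.exp t) *
        Real.exp (-(2 * t))) := by
        refine mul_le_mul h8 (mul_le_mul h10 h9 (Real.exp_pos _).le (by positivity))
          (by positivity) (Real.exp_pos _).le
    _ = (8 * (d : ℝ) ^ 2 + 2 * d) * Real.exp (-(t / 2)) := by
        have e1 : Real.exp (-(t / 2)) = Real.exp (t / 2) * Real.exp t * Real.exp (-(2 * t)) := by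
          rw [← Real.exp_add, ← Real.exp_add]; ring_nf
        rw [e1]; ring
    _ ≤ η := hη

end Numerics

/-- `c = 1 / (2 C)`. If `L ≤ exp (t^(1/C))` use `short_of_klaw` directly, otherwise `transfer` with
`L' = ⌊exp (t^(1/C))⌋`, `D = ⌈4 t⌉`, `m = ⌊exp (t^c)⌋`. -/
theorem fixed_time {d : ℕ} (hd : 2 ≤ d) {C : ℝ} (hC : 1 ≤ C)
    (hK : TN.KLaw d (fun L => {t | (Real.log L) ^ C ≤ t})) :
    ∃ c : ℝ, 0 < c ∧ ∀ ε : ℝ, 0 < ε → ∃ t₀ : ℝ, ∀ t : ℝ, t₀ ≤ t → ∀ (L : ℕ) [NeZero L],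
      Real.exp (t ^ c) ≤ L → ∀ x : Fin d → ZMod L,
        expect d L t (fun σ => if ((cyc σ x).card : ℝ) ≤ Real.exp (t ^ c) then (1 : ℝ) else 0) ≤ ε := by
  have hC0 : 0 < C := by linarith
  set c : ℝ := 1 / (2 * C) with hc
  have hc0 : 0 < c := by positivity
  have hc1 : c < 1 := by
    rw [hc, div_lt_one (by positivity)]
    linarith
  have h2c : 2 * c * C = 1 := by
    rw [hc]
    field_simp
  refine ⟨c, hc0, fun ε hε => ?_⟩
  have hT : ∀ L : ℕ, ∀ t ∈ (fun L : ℕ => {t : ℝ | (Real.log L) ^ C ≤ t}) L, (0 : ℝ) ≤ t := by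
    intro L t ht
    exact le_trans (Real.rpow_nonneg (Real.log_natCast_nonneg L) C) ht
  obtain ⟨δ, hδ, L₀, hS⟩ := short_of_klaw (by omega : 1 ≤ d) hT hK (ε / 2) (by positivity)
  -- short cycles on tori with `log L ≤ t ^ (2 c)`
  have key : ∀ (L : ℕ) [NeZero L], L₀ ≤ L → 1 / δ ≤ (L : ℝ) → ∀ t : ℝ, 1 ≤ t →
      (L : ℝ) ≤ Real.exp (t ^ (2 * c)) → ∀ (x : Fin d → ZMod L) (m : ℕ), (m : ℝ) ≤ L →
      pShort d L t x m ≤ ε / 2 := by
    intro L _ hL0 hLδ t ht hLt x m hm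
    have hL1 : (1 : ℝ) ≤ L := by exact_mod_cast Nat.one_le_iff_ne_zero.2 (NeZero.ne L)
    refine hS L hL0 t ?_ x m ?_
    · have h1 : Real.log L ≤ t ^ (2 * c) := by
        rw [← Real.log_exp (t ^ (2 * c))]
        exact Real.log_le_log (by linarith) hLt
      calc (Real.log L) ^ C ≤ (t ^ (2 * c)) ^ C :=
            Real.rpow_le_rpow (Real.log_nonneg hL1) h1 hC0.le
        _ = t := by rw [← Real.rpow_mul (by linarith), h2c, Real.rpow_one]
    · have h2 : 1 ≤ δ * L := by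
        rw [div_le_iff₀ hδ] at hLδ
        linarith
      calc (m : ℝ) ≤ L := hm
        _ ≤ (δ * L) * L := by nlinarith
        _ = δ * (L : ℝ) ^ 2 := by ring
        _ ≤ δ * (L : ℝ) ^ d := mul_le_mul_of_nonneg_left (pow_le_pow_right₀ hL1 hd) hδ.le
  have hev := ((Filter.eventually_ge_atTop (max 1 (12 * (d : ℝ)))).and (num_rpow hc0 6)).and
    ((num_log hc0).and ((num_rpow hc0 ((L₀ : ℝ) + 1 / δ + 2)).and
      ((num_lin hc1 (η := 1 / (8 * ((d : ℝ) + 1))) (by positivity)).and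
        (num_exp (8 * (d : ℝ) ^ 2 + 2 * d) (η := ε / 2) (by positivity)))))
  obtain ⟨t₀, ht₀⟩ := Filter.eventually_atTop.1 hev
  refine ⟨t₀, fun t ht L _ hL x => ?_⟩
  obtain ⟨⟨hmax, h6⟩, hlog, hbig, hlin, hexp⟩ := ht₀ t ht
  have ht1 : 1 ≤ t := le_trans (le_max_left _ _) hmax
  have htd : 12 * (d : ℝ) ≤ t := le_trans (le_max_right _ _) hmax
  have hu0 : 0 ≤ t ^ c := by linarith
  set m : ℕ := ⌊Real.exp (t ^ c)⌋₊ with hm
  have hm1 : (m : ℝ) ≤ Real.exp (t ^ c) := Nat.floor_le (Real.exp_pos _).le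
  have hbig' : (L₀ : ℝ) + 1 / δ + 2 ≤ Real.exp (t ^ c) :=
    hbig.trans ((by linarith : t ^ c ≤ t ^ c + 1).trans (Real.add_one_le_exp _))
  have hδ0 : 0 < 1 / δ := by positivity
  have hrw : expect d L t (fun σ => if ((cyc σ x).card : ℝ) ≤ Real.exp (t ^ c) then (1 : ℝ)
      else 0) = pShort d L t x m := by
    unfold pShort
    congr 1
    funext σ
    have h1 : ((cyc σ x).card : ℝ) ≤ Real.exp (t ^ c) ↔ (cyc σ x).card ≤ m := by
      rw [hm, Nat.le_floor_iff (Real.exp_pos _).le]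
    simp only [h1]
  rw [hrw]
  by_cases hcase : (L : ℝ) ≤ Real.exp (t ^ (2 * c))
  · have h1 := key L (by
      have : (L₀ : ℝ) ≤ L := by linarith
      exact_mod_cast this) (by linarith) t ht1 hcase x m (hm1.trans hL)
    linarith
  · rw [not_le] at hcase
    set D : ℕ := ⌈4 * t⌉₊ with hD
    set L' : ℕ := ⌊Real.exp (t ^ (2 * c))⌋₊ with hL'
    have hside : 2 * (m * D + D + 2) ≤ L' := num_side ht1 h6 hlog
    have hL'2 : 2 ≤ L' := by
      have : 0 ≤ m * D + D := by positivity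
      omega
    have : NeZero L' := ⟨by omega⟩
    have hL'le : (L' : ℝ) ≤ Real.exp (t ^ (2 * c)) := Nat.floor_le (Real.exp_pos _).le
    have hLL : L' ≤ L := by
      have : (L' : ℝ) ≤ L := hL'le.trans hcase.le
      exact_mod_cast this
    have hD1 : 1 ≤ D := Nat.one_le_ceil_iff.2 (by linarith)
    have hmL : m ≤ L' := by
      have h1 : m * 1 ≤ m * D := Nat.mul_le_mul_left m hD1
      omega
    -- the side `L'` is large
    have hL'big : (L₀ : ℝ) + 1 / δ ≤ L' := by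
      have h1 : Real.exp (t ^ c) - 1 ≤ m := (Nat.sub_one_lt_floor _).le
      have h2 : (m : ℝ) ≤ L' := by exact_mod_cast hmL
      linarith
    have h1 := key L' (by
      have : (L₀ : ℝ) ≤ L' := by linarith
      exact_mod_cast this) (by
        have : (0 : ℝ) ≤ L₀ := Nat.cast_nonneg _
        linarith) t ht1 hL'le 0 m (by exact_mod_cast hmL)
    have h2 := transfer (by omega : 1 ≤ d) hL'2 hLL hD1 hside (by linarith : 0 ≤ t) x
      (0 : Fin d → ZMod L')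
    have h3 := num_err (d := d) ht1 hlog hu0 hlin htd hexp
    rw [← hm, ← hD] at h3
    linarith

end Pool.Agent.Stirring.FT
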