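import Pool.Agent.Lib.MP_6c3d62_pr.FT.Fin

/-! ROW E (helper88). The numerics with a rate: from `transfer` and the bound `K / √(log L)` for
short cycles. -/

set_option autoImplicit false
set_option linter.unusedSectionVars false

open Finset

namespace Pool.Agent.Stirring.FT

open Hier QK Filter Topology

/-- No short cycles at fixed times, with a rate. -/
theorem fixed_time_rate {d : ℕ} (hd : 2 ≤ d) {C : ℝ} (hC : 1 ≤ C)
    (H : ∃ (K : ℝ) (L₀ : ℕ), ∀ (L : ℕ) [NeZero L], L₀ ≤ L → ∀ t : ℝ, (Real.log L) ^ C ≤ t →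
      ∀ (x : Fin d → ZMod L) (m : ℕ), (m : ℝ) ≤ L →
        pShort d L t x m ≤ K / Real.sqrt (Real.log L)) :
    ∃ c a : ℝ, 0 < c ∧ 0 < a ∧ ∃ t₀ : ℝ, ∀ t : ℝ, t₀ ≤ t → ∀ (L : ℕ) [NeZero L],
      Real.exp (t ^ c) ≤ L → ∀ x : Fin d → ZMod L,
        expect d L t (fun σ => if ((cyc σ x).card : ℝ) ≤ Real.exp (t ^ c) then (1 : ℝ) else 0) ≤
          t ^ (-a) := by
  have hC0 : 0 < C := by linarith
  set c : ℝ := 1 / (2 * C) with hc
  have hc0 : 0 < c := by positivity
  have hc1 : c < 1 := by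
    rw [hc, div_lt_one (by positivity)]
    linarith
  have h2c : 2 * c * C = 1 := by
    rw [hc]
    field_simp
  obtain ⟨K, L₀, hS⟩ := H
  refine ⟨c, c / 4, hc0, by positivity, ?_⟩
  -- short cycles on tori with `t ^ c ≤ log L ≤ t ^ (2 c)`
  have key : ∀ (L : ℕ) [NeZero L], L₀ ≤ L → ∀ t : ℝ, 1 ≤ t → Real.exp (t ^ c) ≤ L →
      (L : ℝ) ≤ Real.exp (t ^ (2 * c)) → 2 * |K| ≤ t ^ (c / 4) →
      ∀ (x : Fin d → ZMod L) (m : ℕ), (m : ℝ) ≤ L → pShort d L t x m ≤ t ^ (-(c / 4)) / 2 := by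
    intro L _ hL0 t ht hLt' hLt hKt x m hm
    have ht0 : 0 < t := by linarith
    have hL1 : (1 : ℝ) ≤ L := by exact_mod_cast Nat.one_le_iff_ne_zero.2 (NeZero.ne L)
    have h0 : (Real.log L) ^ C ≤ t := by
      have h1 : Real.log L ≤ t ^ (2 * c) := by
        rw [← Real.log_exp (t ^ (2 * c))]
        exact Real.log_le_log (by linarith) hLt
      calc (Real.log L) ^ C ≤ (t ^ (2 * c)) ^ C :=
            Real.rpow_le_rpow (Real.log_nonneg hL1) h1 hC0.le
        _ = t := by rw [← Real.rpow_mul (by linarith), h2c, Real.rpow_one]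
    have h1 : t ^ c ≤ Real.log L := by
      rw [← Real.log_exp (t ^ c)]
      exact Real.log_le_log (Real.exp_pos _) hLt'
    have h2 : t ^ (c / 2) ≤ Real.sqrt (Real.log L) := by
      refine Real.le_sqrt_of_sq_le ?_
      rw [← Real.rpow_natCast (t ^ (c / 2)) 2, ← Real.rpow_mul ht0.le]
      refine le_trans (le_of_eq ?_) h1
      congr 1
      push_cast
      ring
    have h3 : 0 < t ^ (c / 2) := Real.rpow_pos_of_pos ht0 _
    have h4 : 0 < t ^ (c / 4) := Real.rpow_pos_of_pos ht0 _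
    have h5 : t ^ (c / 2) = t ^ (c / 4) * t ^ (c / 4) := by
      rw [← Real.rpow_add ht0]
      congr 1
      ring
    calc pShort d L t x m ≤ K / Real.sqrt (Real.log L) := hS L hL0 t h0 x m hm
      _ ≤ |K| / Real.sqrt (Real.log L) :=
          div_le_div_of_nonneg_right (le_abs_self K) (Real.sqrt_nonneg _)
      _ ≤ |K| / t ^ (c / 2) := div_le_div_of_nonneg_left (abs_nonneg K) h3 h2
      _ ≤ t ^ (-(c / 4)) / 2 := by
          rw [Real.rpow_neg ht0.le, h5, div_le_iff₀ (by positivity)]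
          have h6 : (t ^ (c / 4))⁻¹ / 2 * (t ^ (c / 4) * t ^ (c / 4)) = t ^ (c / 4) / 2 := by
            field_simp
          rw [h6]
          linarith
  have hev1 : ∀ᶠ t : ℝ in atTop, (8 * (d : ℝ) ^ 2 + 2 * d) * (t ^ (c / 4) * Real.exp (-(1 / 2) * t)) ≤
      1 / 2 := by
    have h1 := (tendsto_rpow_mul_exp_neg_mul_atTop_nhds_zero (c / 4) (1 / 2)
      (by norm_num)).const_mul (8 * (d : ℝ) ^ 2 + 2 * d)
    rw [mul_zero] at h1
    exact (h1.eventually_lt_const (by norm_num : (0 : ℝ) < 1 / 2)).mono fun t ht => ht.le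
  have hev := ((Filter.eventually_ge_atTop (max 1 (12 * (d : ℝ)))).and (num_rpow hc0 6)).and
    ((num_log hc0).and ((num_rpow hc0 ((L₀ : ℝ) + 2)).and
      (((num_lin hc1 (η := 1 / (8 * ((d : ℝ) + 1))) (by positivity)).and hev1).and
        (num_rpow (by positivity : 0 < c / 4) (2 * |K|)))))
  obtain ⟨t₀, ht₀⟩ := Filter.eventually_atTop.1 hev
  refine ⟨t₀, fun t ht L _ hL x => ?_⟩
  obtain ⟨⟨hmax, h6⟩, hlog, hbig, ⟨hlin, hexp⟩, hKt⟩ := ht₀ t ht
  have ht1 : 1 ≤ t := le_trans (le_max_left _ _) hmax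
  have ht0 : 0 < t := by linarith
  have htd : 12 * (d : ℝ) ≤ t := le_trans (le_max_right _ _) hmax
  have hu0 : 0 ≤ t ^ c := by linarith
  set m : ℕ := ⌊Real.exp (t ^ c)⌋₊ with hm
  have hm1 : (m : ℝ) ≤ Real.exp (t ^ c) := Nat.floor_le (Real.exp_pos _).le
  have hbig' : (L₀ : ℝ) + 2 ≤ Real.exp (t ^ c) :=
    hbig.trans ((by linarith : t ^ c ≤ t ^ c + 1).trans (Real.add_one_le_exp _))
  have hrw : expect d L t (fun σ => if ((cyc σ x).card : ℝ) ≤ Real.exp (t ^ c) then (1 : ℝ)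
      else 0) = pShort d L t x m := by
    unfold pShort
    congr 1
    funext σ
    have h1 : ((cyc σ x).card : ℝ) ≤ Real.exp (t ^ c) ↔ (cyc σ x).card ≤ m := by
      rw [hm, Nat.le_floor_iff (Real.exp_pos _).le]
    simp only [h1]
  rw [hrw]
  have hpos : 0 < t ^ (-(c / 4)) := Real.rpow_pos_of_pos ht0 _
  by_cases hcase : (L : ℝ) ≤ Real.exp (t ^ (2 * c))
  · have h1 := key L (by
      have : (L₀ : ℝ) ≤ L := by linarith
      exact_mod_cast this) t ht1 hL hcase hKt x m (hm1.trans hL)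
    linarith
  · rw [not_le] at hcase
    set D : ℕ := ⌈4 * t⌉₊ with hD
    set L' : ℕ := ⌊Real.exp (t ^ (2 * c))⌋₊ with hL'
    have hside : 2 * (m * D + D + 2) ≤ L' := num_side ht1 h6 hlog
    have hL'2 : 2 ≤ L' := by
      have : 0 ≤ m * D + D := by positivity
      omega
    have : NeZero L' := ⟨by omega⟩
    have hL'le : (L' : ℝ) ≤ Real.exp (t ^ (2 * c)) := Nat.floor_le (Real.exp_pos _).le
    have hLL : L' ≤ L := by
      have : (L' : ℝ) ≤ L := hL'le.trans hcase.le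
      exact_mod_cast this
    have hD1 : 1 ≤ D := Nat.one_le_ceil_iff.2 (by linarith)
    have hmL2 : m + 1 ≤ L' := by
      have h1 : m * 1 ≤ m * D := Nat.mul_le_mul_left m hD1
      omega
    have hmL : m ≤ L' := by omega
    -- the side `L'` is large
    have hL'big : Real.exp (t ^ c) ≤ L' := by
      have h1 : Real.exp (t ^ c) - 1 ≤ m := (Nat.sub_one_lt_floor _).le
      have h2 : (m : ℝ) + 1 ≤ L' := by exact_mod_cast hmL2
      linarith
    have h1 := key L' (by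
      have : (L₀ : ℝ) ≤ L' := by linarith
      exact_mod_cast this) t ht1 hL'big hL'le hKt 0 m (by exact_mod_cast hmL)
    have h2 := transfer (by omega : 1 ≤ d) hL'2 hLL hD1 hside (by linarith : 0 ≤ t) x
      (0 : Fin d → ZMod L')
    have hexp' : (8 * (d : ℝ) ^ 2 + 2 * d) * Real.exp (-(t / 2)) ≤ t ^ (-(c / 4)) / 2 := by
      have e1 : Real.exp (-(t / 2)) = t ^ (-(c / 4)) * (t ^ (c / 4) * Real.exp (-(1 / 2) * t)) := by
        rw [← mul_assoc, ← Real.rpow_add ht0, neg_add_cancel, Real.rpow_zero, one_mul]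
        congr 1
        ring
      rw [e1]
      calc (8 * (d : ℝ) ^ 2 + 2 * d) * (t ^ (-(c / 4)) * (t ^ (c / 4) * Real.exp (-(1 / 2) * t))) =
          t ^ (-(c / 4)) * ((8 * (d : ℝ) ^ 2 + 2 * d) *
            (t ^ (c / 4) * Real.exp (-(1 / 2) * t))) := by ring
        _ ≤ t ^ (-(c / 4)) * (1 / 2) := mul_le_mul_of_nonneg_left hexp hpos.le
        _ = t ^ (-(c / 4)) / 2 := by ring
    have h3 := num_err (d := d) ht1 hlog hu0 hlin htd hexp'
    rw [← hm, ← hD] at h3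
    linarith

end Pool.Agent.Stirring.FT
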