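import Pool.Agent.Lib.MP_6c3d62_pr.Mg.G070

/-!
# The representation of one environment, for a general function (helper92)
-/

set_option autoImplicit false
set_option linter.unusedSectionVars false

open Finset Equiv Pool.Agent.Stirring

namespace Pool.Agent.PL

section Repr

variable {V : Type} [AddCommGroup V] [Fintype V] [DecidableEq V] {Ω : Type} [Fintype Ω]

/-- `inner_repr` for a general function. -/
theorem inner_repr_gen {S : QK.Slab V Ω} {Q : Finset V} (hQ : Q.Nonempty)
    (l : List (Ω × (V → Perm V → ℝ))) (hl : Adm S Q l)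
    (hdis : ∀ a, QK.Dis Q (S.good a)) {M0 : Finset V} (hM0 : QK.Dis Q M0) (Φ : Perm V)
    (F : Perm V → ℝ) (G : Perm (Fin (l.length + 1) × V) → ℝ)
    (hFG : ∀ s : ℕ → Perm V,
      G ((stP l.length (envS S (l.map Prod.fst)) Φ⁻¹)⁻¹ * gr_LA (l.length + 1) s) =
        F (gr_PP (fun j => ((l.map Prod.fst).map S.T).getD j 1) s l.length * Φ * s 0)) :
    ∃ (π : Fin (l.length + 1) × V → Perm (Fin (l.length + 1) × V) → ℝ)
      (nodes : List (Fin (l.length + 1) × V)),
      nodes.Nodup ∧
      (∀ y, y ∈ nodes ↔ ∃ q, stc l.length (envW S Q M0 (l.map Prod.fst)) q = some y) ∧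
      (∀ y ∈ nodes, (univ.filter fun q =>
        stc l.length (envW S Q M0 (l.map Prod.fst)) q = some y).card = Q.card) ∧
      (∀ y ∈ nodes, Dens (stc l.length (envW S Q M0 (l.map Prod.fst))) Q.card 4 y (π y)) ∧
      (∀ y ∈ M0, ∀ σ, π (0, y) σ = open Classical in
        if ∀ q, stc l.length (envW S Q M0 (l.map Prod.fst)) q ≠ some (0, y) → σ q = q
          then 1 / (Q.card.factorial : ℝ) else 0) ∧
      JS S (fun g => JL (wUnif Q) F M0.toList (g * Φ)) l 1
        = JL π G nodes (stP l.length (envS S (l.map Prod.fst)) Φ⁻¹)⁻¹ := by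
  classical
  set w := envW S Q M0 (l.map Prod.fst) with hw
  -- the set of windows of each level
  set Gs : ℕ → Finset V := fun j => ((M0 :: (l.map Prod.fst).map S.good).getD j ∅) with hGs
  have hwG : ∀ j, w j = colW Q (Gs j) := fun j => rfl
  have hG0 : Gs 0 = M0 := rfl
  have hG1 : ∀ i (h : i < l.length), Gs (i + 1) = S.good (l[i]).1 := by
    intro i h
    show (M0 :: (l.map Prod.fst).map S.good).getD (i + 1) ∅ = _
    rw [List.getD_cons_succ, List.getD_eq_getElem _ _ (by simpa using h)]
    simp
  have hGd : ∀ j, QK.Dis Q (Gs j) := by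
    intro j
    rcases j with _ | i
    · exact hM0
    · by_cases h : i < l.length
      · rw [hG1 i h]; exact hdis _
      · have : Gs (i + 1) = ∅ := by
          show (M0 :: (l.map Prod.fst).map S.good).getD (i + 1) ∅ = _
          rw [List.getD_cons_succ, List.getD_eq_default _ _ (by simpa using h)]
        rw [this]
        intro q hq
        exact absurd hq (Finset.notMem_empty q)
  -- the laws
  set lw : ℕ → V → Perm V → ℝ := fun j => ((wUnif Q) :: l.map Prod.snd).getD j (wUnif Q) with hlw
  have hl1 : ∀ i (h : i < l.length), lw (i + 1) = (l[i]).2 := by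
    intro i h
    show ((wUnif Q) :: l.map Prod.snd).getD (i + 1) (wUnif Q) = _
    rw [List.getD_cons_succ, List.getD_eq_getElem _ _ (by simpa using h)]
    simp
  have hlW : ∀ j, ∀ y ∈ Gs j, WDens Q y (lw j y) := by
    intro j y hy
    rcases j with _ | i
    · exact gr_wUnif_dens Q y
    · by_cases h : i < l.length
      · rw [hl1 i h]
        rw [hG1 i h] at hy
        exact hl _ (List.getElem_mem h) y hy
      · have : lw (i + 1) = wUnif Q := by
          show ((wUnif Q) :: l.map Prod.snd).getD (i + 1) (wUnif Q) = _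
          rw [List.getD_cons_succ, List.getD_eq_default _ _ (by simpa using h)]
        rw [this]
        exact gr_wUnif_dens Q y
  set π : Fin (l.length + 1) × V → Perm (Fin (l.length + 1) × V) → ℝ :=
    fun q => gr_push (l.length + 1) q.1 (lw q.1 q.2) with hπ
  have hmem : ∀ q : Fin (l.length + 1) × V, q ∈ gr_nd S l.length M0 0 l ↔ q.2 ∈ Gs q.1 := by
    intro q
    rw [gr_nd_mem S l.length M0 l 0 (by omega)]
    constructor
    · rintro (⟨h1, h2⟩ | ⟨i, hi, h1, h2⟩)
      · rw [h1, hG0]; exact h2
      · rw [h1, show 0 + 1 + i = i + 1 by omega, hG1 i hi]; exact h2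
    · intro h
      rcases hq : (q.1 : ℕ) with _ | i
      · rw [hq, hG0] at h
        exact Or.inl ⟨rfl, h⟩
      · have hi : i < l.length := by have := q.1.isLt; omega
        rw [hq, hG1 i hi] at h
        exact Or.inr ⟨i, hi, by omega, h⟩
  refine ⟨π, gr_nd S l.length M0 0 l, gr_nd_nodup S l.length M0 l 0 (by omega), ?_, ?_, ?_, ?_, ?_⟩
  · rintro ⟨i, y⟩
    rw [hmem]
    constructor
    · intro hy
      obtain ⟨q0, hq0⟩ := hQ
      refine ⟨(i, y + q0), ?_⟩
      rw [gr_stc_some w i (hwG i) (hGd i) hy]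
      exact ⟨rfl, by simpa using hq0⟩
    · rintro ⟨⟨j, v⟩, hq⟩
      change (w j v).map (fun x => (j, x)) = some (i, y) at hq
      rw [Option.map_eq_some_iff] at hq
      obtain ⟨x, hx, hxy⟩ := hq
      have h1 : j = i := congrArg Prod.fst hxy
      have h2 : x = y := congrArg Prod.snd hxy
      subst h1
      subst h2
      rw [hwG] at hx
      exact (gr_colW_mem hx).1
  · rintro ⟨i, y⟩ hy
    rw [hmem] at hy
    have h1 : (univ.filter fun q : Fin (l.length + 1) × V => stc l.length w q = some (i, y))
        = (univ.filter fun v : V => v - y ∈ Q).image fun v => (i, v) := by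
      ext ⟨j, v⟩
      simp only [Finset.mem_filter, Finset.mem_univ, true_and, Finset.mem_image,
        gr_stc_some w i (hwG i) (hGd i) hy, Prod.mk.injEq]
      constructor
      · rintro ⟨rfl, h⟩; exact ⟨v, h, rfl, rfl⟩
      · rintro ⟨v', h, rfl, rfl⟩; exact ⟨rfl, h⟩
    rw [h1, Finset.card_image_of_injective _ (fun a b h => congrArg Prod.snd h), gr_card_win]
  · rintro ⟨i, y⟩ hy
    rw [hmem] at hy
    exact gr_push_dens w i (hwG i) (hGd i) hy (hlW _ y hy)
  · intro y hy σ
    exact gr_push_unif w (hwG 0) hM0 hy σ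
  · have hT : ∀ i (h : i < l.length), ((l.map Prod.fst).map S.T).getD i 1 = S.T (l[i]).1 := by
      intro i h
      rw [List.getD_eq_getElem _ _ (by simpa using h)]
      simp
    have hmain := gr_main S Q M0 l.length (fun j => ((l.map Prod.fst).map S.T).getD j 1) Φ
      F (stP l.length (envS S (l.map Prod.fst)) Φ⁻¹)⁻¹ G π hFG
      (fun y _ => rfl) l 0 (by omega)
      (fun i h => by rw [zero_add]; exact hT i h)
      (fun i h y _ => by
        show gr_push (l.length + 1) ((gr_lv l.length (0 + i + 1)) : ℕ)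
          (lw ((gr_lv l.length (0 + i + 1)) : ℕ) y) = _
        rw [gr_lv_val (by omega), zero_add, hl1 i h])
      (fun _ => 1) rfl (fun _ _ => rfl)
    have h1 : gr_LA (l.length + 1) (fun _ => (1 : Perm V)) = 1 := rfl
    rw [h1, mul_one] at hmain
    exact hmain


end Repr

end Pool.Agent.PL
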