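import Pool.Agent.Lib.MP_6c3d62_pr.Mg.G065

/-!
# The cycle of a point of one node meets the other node

(helper92) The analogue of T4, T5 for the event the cycle of `x` misses the sites of `y'`.
-/

open Finset

set_option linter.unusedSectionVars false

namespace Pool.Agent.Stirring.TN

open Pool.Agent.Stirring

section Comb

variable {X : Type*} [Fintype X] [DecidableEq X]

open Classical in
/-- `1` if the cycle of `x` misses `S`, else `0`. -/
noncomputable def missI (S : Finset X) (x : X) (η : Equiv.Perm X) : ℝ :=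
  if ∃ v ∈ S, η.SameCycle x v then 0 else 1

theorem missI_nonneg (S : Finset X) (x : X) (η : Equiv.Perm X) : 0 ≤ missI S x η := by
  unfold missI
  split_ifs
  · exact le_rfl
  · exact zero_le_one

theorem missI_le_one (S : Finset X) (x : X) (η : Equiv.Perm X) : missI S x η ≤ 1 := by
  unfold missI
  split_ifs
  · exact zero_le_one
  · exact le_rfl

variable {w : Equiv.Perm X → ℝ} {S1 S2 : Finset X} {ω : Equiv.Perm X} {A : ℝ}

/-- If the cycle of a point of the first node misses the second one, it passes through itself before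
a crossing back. -/
theorem pass_of_miss {σ : Equiv.Perm X} (hd : Disjoint S1 S2) (hσ : Pres S1 S2 σ) {x : X}
    (h : ¬ ∃ v ∈ S2, (ω * σ).SameCycle x v) : Pass ω σ S1 S2 x x := by
  refine pass_of_eq (m := orderOf (ω * σ) - 1) ?_ fun j _ hj => ?_
  · rw [Nat.sub_add_cancel (orderOf_pos (ω * σ)), pow_orderOf_eq_one]
    rfl
  · have h1 : out ω σ x j ∈ S2 := cr_subset _ _ _ _ _ hj
    rw [out_eq] at h1
    have h2 : ((ω * σ) ^ j) x ∉ S2 := fun h2 => h ⟨_, h2, ⟨j, by rw [zpow_natCast]⟩⟩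
    by_cases h3 : ((ω * σ) ^ j) x ∈ S1
    · exact Finset.disjoint_left.mp hd (hσ.fst _ h3) h1
    · rw [hσ.off _ (by rw [Finset.mem_union, not_or]; exact ⟨h3, h2⟩)] at h1
      exact h2 h1

/-- The cycle of a point of the first node misses the second one with probability at most the
inverse of the number of the crossings. -/
theorem sum_miss_le (hw : Law w S1 S2) (hd : Disjoint S1 S2)
    (hA1 : A ≤ (cr ω S1 S2 S1 S2).card) (hA2 : A ≤ (cr ω S1 S2 S2 S1).card) {x : X}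
    (hx : x ∈ S1) : A * ∑ σ, w σ * missI S2 x (ω * σ) ≤ 1 := by
  classical
  have h1 := pr_pass_le hw hd hA1 hA2 (Finset.mem_union_left S2 hx) x
  have h2 : ∑ σ, w σ * missI S2 x (ω * σ) = pr w (fun σ => ¬ ∃ v ∈ S2, (ω * σ).SameCycle x v) := by
    unfold pr missI
    refine Finset.sum_congr rfl fun σ _ => ?_
    by_cases h : ∃ v ∈ S2, (ω * σ).SameCycle x v
    · rw [if_pos h, if_neg (not_not.mpr h), mul_zero]
    · rw [if_neg h, if_pos h, mul_one]
  have h3 : pr w (fun σ => ¬ ∃ v ∈ S2, (ω * σ).SameCycle x v) ≤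
      pr w (fun σ => Pass ω σ S1 S2 x x) :=
    pr_mono hw.nonneg fun σ h0 h => pass_of_miss hd (hw.pres σ h0) h
  rw [h2]
  by_cases hA : 0 ≤ A
  · exact (mul_le_mul_of_nonneg_left h3 hA).trans h1
  · push Not at hA
    exact le_trans (mul_nonpos_of_nonpos_of_nonneg hA.le (pr_nonneg hw.nonneg _)) zero_le_one

theorem miss_avg (hd : Disjoint S1 S2) {ν : Equiv.Perm X} (hν : FR ω ν (S1 ∪ S2)) (hA : 0 < A)
    (hA1 : A ≤ nstr ν S1 S2) {x : X} (hx : x ∈ S1) :
    (∑ σ1 ∈ permsOn S1, ∑ σ2 ∈ permsOn S2, missI S2 x (ω * σ1 * σ2)) /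
      ((S1.card.factorial : ℝ) * (S2.card.factorial : ℝ)) ≤ 1 / A := by
  have h1 := sum_miss_le (law_w2 hd) hd (ω := ω) (A := A)
    (by rw [hν.card_cr Finset.subset_union_left Finset.subset_union_right]; exact hA1)
    (by
      rw [hν.card_cr Finset.subset_union_right Finset.subset_union_left,
        ← nstr_symm hd fun c hc => (hν.on c hc).1]
      exact hA1) hx
  rw [sum_w2 S1 S2 (fun σ => missI S2 x (ω * σ))] at h1
  simp only [← mul_assoc] at h1
  rw [le_div_iff₀ hA, mul_comm]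
  exact h1

end Comb

section End

variable {Q : Type} [Fintype Q] [DecidableEq Q] {Y : Type} [Fintype Y] [DecidableEq Y]

/-- The two last nodes. -/
theorem miss_last {c : Q → Option Y} {π : Y → Equiv.Perm Q → ℝ} {y y' : Y} (hyy : y ≠ y')
    (hu : UnifAt c y (π y)) (hu' : UnifAt c y' (π y')) {x : Q} (hx : c x = some y) {ρ : ℝ}
    (hρ : 0 < ρ) {Θ : Equiv.Perm Q} (h : PL.ResLe (PL.netA Θ c {y, y'}) ρ y y') :
    PL.JL π (missI (fib c y') x) [y, y'] Θ ≤ 2 * ρ := by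
  have h1 := miss_avg (fib_disjoint hyy) (fr_wir Θ c y y') (A := 1 / (2 * ρ)) (by positivity)
    (nstr_of_res hyy hρ h) (x := x) (mem_fib.mpr hx)
  have h2 : PL.JL π (missI (fib c y') x) [y, y'] Θ =
      (∑ σ1 ∈ permsOn (fib c y), ∑ σ2 ∈ permsOn (fib c y'), missI (fib c y') x (Θ * σ1 * σ2)) /
      (((fib c y).card.factorial : ℝ) * ((fib c y').card.factorial : ℝ)) := by
    show ∑ σ, π y σ * (∑ σ', π y' σ' * missI (fib c y') x (Θ * σ * σ')) = _
    rw [sum_unif hu]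
    simp only [sum_unif hu']
    rw [← Finset.sum_div, div_div, mul_comm ((fib c y').card.factorial : ℝ)]
  rw [h2]
  refine h1.trans (le_of_eq ?_)
  field_simp

/-- All the nodes are shuffled independently, `y` and `y'` uniformly. -/
theorem miss_end {c : Q → Option Y} {N : ℕ} {π : Y → Equiv.Perm Q → ℝ} {l : List Y}
    {Θ : Equiv.Perm Q} (hl : l.Nodup) (hπ : ∀ y ∈ l, PL.Dens c N 4 y (π y)) {y y' : Y}
    (hyy : y ≠ y') (hyl : y ∈ l) (hyl' : y' ∈ l) (hu : UnifAt c y (π y))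
    (hu' : UnifAt c y' (π y')) {x : Q} (hx : c x = some y) {ρ δ : ℝ} (hρ : 0 < ρ)
    (hbad : ∀ l' : List Y, l'.Nodup → (∀ u, u ∈ l' ↔ u ∈ l ∧ u ∉ ({y, y'} : Finset Y)) →
      PL.JL π (fun Θ' => open Classical in
        if ∀ u ∈ ({y, y'} : Finset Y), ∀ v ∈ ({y, y'} : Finset Y),
          PL.ResLe (PL.netA Θ' c {y, y'}) ρ u v then 0 else 1) l' Θ ≤ δ) :
    PL.JL π (missI (fib c y') x) l Θ ≤ 2 * ρ + δ := by
  classical
  -- the two nodes last
  set l' := (l.erase y).erase y' with hl'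
  have hnd : (l.erase y).Nodup := hl.erase _
  have hmem : ∀ u, u ∈ l' ↔ u ∈ l ∧ u ∉ ({y, y'} : Finset Y) := by
    intro u
    rw [hl', hnd.mem_erase_iff, hl.mem_erase_iff, Finset.mem_insert, Finset.mem_singleton, not_or]
    tauto
  have hperm : l.Perm (l' ++ [y, y']) := by
    have h1 : l.Perm (y :: l.erase y) := List.perm_cons_erase hyl
    have h2 : (l.erase y).Perm (y' :: l') :=
      List.perm_cons_erase ((hl.mem_erase_iff).mpr ⟨fun h => hyy h.symm, hyl'⟩)
    refine h1.trans ((List.Perm.cons _ h2).trans ?_)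
    have h3 : (y :: y' :: l') = [y, y'] ++ l' := rfl
    rw [h3]
    exact List.perm_append_comm
  rw [PL.JL_perm _ hl hπ hperm Θ, JL_append]
  have hπ' : ∀ u ∈ l', PL.Dens c N 4 u (π u) := fun u hu => hπ u ((hmem u).mp hu).1
  have hπ2 : ∀ u ∈ [y, y'], PL.Dens c N 4 u (π u) := by
    intro u hu
    rcases List.mem_cons.mp hu with h | h
    · rw [h]
      exact hπ _ hyl
    · rw [List.mem_singleton.mp h]
      exact hπ _ hyl'
  have h1 : ∀ Θ' : Equiv.Perm Q, PL.JL π (missI (fib c y') x) [y, y'] Θ' ≤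
      2 * ρ + (if ∀ u ∈ ({y, y'} : Finset Y), ∀ v ∈ ({y, y'} : Finset Y),
          PL.ResLe (PL.netA Θ' c {y, y'}) ρ u v then (0 : ℝ) else 1) := by
    intro Θ'
    split_ifs with h
    · rw [add_zero]
      exact miss_last hyy hu hu' hx hρ
        (h _ (Finset.mem_insert_self _ _) _ (Finset.mem_insert_of_mem (Finset.mem_singleton_self _)))
    · have h2 := JL_mono (G := missI (fib c y') x) (H := fun _ => 1)
        (fun η => missI_le_one _ _ η) hπ2 Θ'
      rw [JL_const 1 hπ2] at h2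
      linarith
  refine (JL_mono h1 hπ' Θ).trans ?_
  rw [JL_add, JL_const _ hπ']
  have h2 := hbad l' (hnd.erase _) hmem
  refine add_le_add le_rfl (le_trans (le_of_eq ?_) h2)
  congr

end End

/-- The freezing theorem and `miss_end` together. -/
theorem miss_freeze (C1 : ℝ) (hC1 : 1 ≤ C1) : ∃ C2 : ℝ, 1 ≤ C2 ∧
    ∀ (Q : Type) [Fintype Q] [DecidableEq Q] (Y : Type) [Fintype Y] [DecidableEq Y]
      (c : Q → Option Y) (N : ℕ) (ρ κ : ℝ) (A0 : Finset Y) (π : Y → Equiv.Perm Q → ℝ) (l : List Y)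
      (Θ : Equiv.Perm Q) (y y' : Y) (x : Q),
    0 < ρ → (N : ℝ) * ρ ≤ C1 → 1 ≤ κ → C2 * κ ^ 2 ≤ N →
    C2 * κ * Real.log (A0.card) ≤ Real.sqrt (Real.sqrt N) →
    (A0.card : ℝ) ^ 6 * N ≤ Real.exp κ →
    (∀ y ∈ A0, (univ.filter fun w => c w = some y).card = N) →
    (∀ q y, c q = some y → y ∈ A0) →
    l.Nodup → (∀ y, y ∈ l ↔ y ∈ A0) → (∀ y ∈ l, PL.Dens c N 4 y (π y)) →
    (∀ y ∈ A0, ∀ z ∈ A0, PL.ResLe (PL.netA Θ c A0) (ρ / 2) y z) →
    y ≠ y' → UnifAt c y (π y) → UnifAt c y' (π y') → c x = some y → y' ∈ A0 →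
      PL.JL π (missI (fib c y') x) l Θ ≤
        2 * ρ + C2 * (A0.card : ℝ) ^ 2 * Real.exp (-(κ / 2)) := by
  obtain ⟨C2, hC2, hfr⟩ := PL.freeze C1 hC1
  refine ⟨C2, hC2, ?_⟩
  intro Q _ _ Y _ _ c N ρ κ A0 π l Θ y y' x hρ h1 h2 h3 h4 h5 h6 h7 hl hlA hπ hres hyy hu hu' hx hy'
  have hy : y ∈ A0 := h7 _ _ hx
  refine miss_end hl hπ hyy ((hlA _).mpr hy) ((hlA _).mpr hy') hu hu' hx hρ ?_
  intro l' hl' hl'A
  refine hfr Q Y c N ρ κ A0 {y, y'} π l' Θ hρ h1 h2 h3 h4 h5 ?_ ?_ h6 h7 hl' ?_ ?_ hres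
  · rw [Finset.card_pair hyy]
  · intro u hu
    rcases Finset.mem_insert.mp hu with h | h
    · rw [h]
      exact hy
    · rw [Finset.mem_singleton.mp h]
      exact hy'
  · intro u
    rw [hl'A, hlA]
  · intro u hu
    exact hπ u ((hl'A u).mp hu).1

end Pool.Agent.Stirring.TN
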