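import Pool.Agent.Lib.MP_6c3d62_pr.Mg.G070
import Pool.Agent.Lib.MP_6c3d62_pr.Mg.G074
import Pool.Agent.Lib.MP_6c3d62_pr.FT.Miss0
import Pool.Agent.Lib.MP_6c3d62_pr.FT.Miss1

/-!
# The cycle of a point meets the window of a far point, with a rate

(helper92) `miss_of_env`: for good environments the cycle of `x` misses the window `y + Q` with
probability at most `K / sqrt (log L)`. `short_of_env`: the cycle of `x` has at most
`L^d / (4 (log L)^(A d))` vertices with probability at most `K / sqrt (log L)`.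
-/

set_option autoImplicit false
set_option linter.unusedSectionVars false

open Finset Equiv Pool.Agent.Stirring

namespace Pool.Agent.PL

/-- The window `y + Q`. -/
def win1 {V : Type} [AddCommGroup V] [Fintype V] [DecidableEq V] (Q : Finset V) (y : V) :
    Finset V := univ.filter fun v => v - y ∈ Q

theorem mem_win1 {V : Type} [AddCommGroup V] [Fintype V] [DecidableEq V] {Q : Finset V} {y v : V} :
    v ∈ win1 Q y ↔ v - y ∈ Q := by
  simp [win1]

/-- **One good environment.** -/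
theorem inner_miss (d : ℕ) (hd : 2 ≤ d) (c1 : ℝ) (hc1 : 0 < c1) : ∃ C : ℝ, 1 ≤ C ∧
    ∀ (L : ℕ) [NeZero L] (Ω : Type) [Fintype Ω] (S : QK.Slab (Fin d → ZMod L) Ω)
      (Q : Finset (Fin d → ZMod L))
      (l : List (Ω × ((Fin d → ZMod L) → Perm (Fin d → ZMod L) → ℝ)))
      (M0 : Finset (Fin d → ZMod L)) (Φ : Perm (Fin d → ZMod L)) (x y : Fin d → ZMod L)
      (r : ℕ) (M Kw κ : ℝ),
    (0 : Fin d → ZMod L) ∈ Q → 1 ≤ l.length → 8 ≤ r → 2 * r ≤ L → 0 ≤ M →
    GoodEnv (envS S (l.map Prod.fst)) (envW S Q M0 (l.map Prod.fst)) l.length Q.card r c1 M Kw →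
    M * Kw ≤ Q.card → (Q.card : ℝ) * l.length * (1 + Real.log L) ^ 2 ≤ (r : ℝ) ^ d →
    Adm S Q l → (∀ a, QK.Dis Q (S.good a)) → QK.Dis Q M0 →
    x ∈ M0 → y ∈ M0 → x ≠ y →
    1 ≤ κ → C * κ ^ 2 ≤ Q.card →
    C * κ * Real.log (((l.length : ℝ) + 1) * (L : ℝ) ^ d) ≤ Real.sqrt (Real.sqrt Q.card) →
    (((l.length : ℝ) + 1) * (L : ℝ) ^ d) ^ 6 * Q.card ≤ Real.exp κ →
    JS S (fun g => JL (wUnif Q) (TN.missI (win1 Q y) x) M0.toList (g * Φ)) l 1 ≤
      2 * (C / Q.card) +
        C * (((l.length : ℝ) + 1) * (L : ℝ) ^ d) ^ 2 * Real.exp (-(κ / 2)) := by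
  classical
  obtain ⟨C3, hC3, hres⟩ := res_bound d hd c1 hc1
  obtain ⟨C2, hC2, hend⟩ := TN.miss_freeze (2 * C3) (by linarith)
  refine ⟨max C2 (2 * C3), le_max_of_le_left hC2, ?_⟩
  intro L _ Ω _ S Q l M0 Φ x y r M Kw κ h0Q hl1 hr8 hrL hM hG hMK hNJ hadm hdis hdM0 hxM hyM hxy
    hκ hκN hκlog hκexp
  have hQne : Q.Nonempty := ⟨0, h0Q⟩
  have hN1 : 1 ≤ Q.card := Finset.card_pos.mpr hQne
  have hN0 : (0 : ℝ) < Q.card := by exact_mod_cast hN1
  -- the marked nodes
  have hst : ∀ u ∈ M0, ∀ q : Fin (l.length + 1) × (Fin d → ZMod L),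
      stc l.length (envW S Q M0 (l.map Prod.fst)) q = some ((0 : Fin (l.length + 1)), u) ↔
        q.1 = 0 ∧ q.2 - u ∈ Q :=
    fun u hu q => gr_stc_some (envW S Q M0 (l.map Prod.fst)) (0 : Fin (l.length + 1)) rfl hdM0 hu q
  have hFG : ∀ s : ℕ → Perm (Fin d → ZMod L),
      TN.missI (TN.fib (stc l.length (envW S Q M0 (l.map Prod.fst)))
          ((0 : Fin (l.length + 1)), y)) ((0 : Fin (l.length + 1)), x)
        ((stP l.length (envS S (l.map Prod.fst)) Φ⁻¹)⁻¹ * gr_LA (l.length + 1) s) =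
      TN.missI (win1 Q y) x
        (gr_PP (fun j => ((l.map Prod.fst).map S.T).getD j 1) s l.length * Φ * s 0) := by
    intro s
    have hsc := gr_sameCycle l.length (fun j => ((l.map Prod.fst).map S.T).getD j 1) s Φ x
    have h1 : (∃ v ∈ TN.fib (stc l.length (envW S Q M0 (l.map Prod.fst)))
          ((0 : Fin (l.length + 1)), y),
        ((stP l.length (envS S (l.map Prod.fst)) Φ⁻¹)⁻¹ *
          gr_LA (l.length + 1) s).SameCycle ((0 : Fin (l.length + 1)), x) v) ↔
        ∃ v ∈ win1 Q y,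
          (gr_PP (fun j => ((l.map Prod.fst).map S.T).getD j 1) s l.length * Φ * s 0).SameCycle
            x v := by
      constructor
      · rintro ⟨⟨j, v⟩, hv, hc⟩
        rw [TN.mem_fib, hst y hyM] at hv
        obtain ⟨hj, hv⟩ := hv
        have hj' : j = 0 := hj
        subst hj'
        exact ⟨v, mem_win1.mpr hv, (hsc v).mp hc⟩
      · rintro ⟨v, hv, hc⟩
        refine ⟨((0 : Fin (l.length + 1)), v), ?_, (hsc v).mpr hc⟩
        rw [TN.mem_fib, hst y hyM]
        exact ⟨rfl, mem_win1.mp hv⟩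
    unfold TN.missI
    by_cases h : ∃ v ∈ win1 Q y,
          (gr_PP (fun j => ((l.map Prod.fst).map S.T).getD j 1) s l.length * Φ * s 0).SameCycle
            x v
    · rw [if_pos h, if_pos (h1.mpr h)]
    · rw [if_neg h, if_neg fun h2 => h (h1.mp h2)]
  obtain ⟨π, nodes, hnd, hmem, hcard, hdens, hunif, hrepr⟩ :=
    inner_repr_gen (S := S) hQne l hadm hdis hdM0 Φ (TN.missI (win1 Q y) x)
      (TN.missI (TN.fib (stc l.length (envW S Q M0 (l.map Prod.fst)))
          ((0 : Fin (l.length + 1)), y)) ((0 : Fin (l.length + 1)), x)) hFG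
  have hRB : RB (stP l.length (envS S (l.map Prod.fst)) Φ⁻¹)
      (stc l.length (envW S Q M0 (l.map Prod.fst))) (C3 / Q.card) :=
    hres L (envS S (l.map Prod.fst)) Φ⁻¹ (envW S Q M0 (l.map Prod.fst)) l.length Q.card r M Kw
      hN1 hl1 hr8 hrL hM hG hMK hNJ
  -- parameters
  obtain ⟨ρ, hρ⟩ : ∃ ρ : ℝ, ρ = 2 * C3 / Q.card := ⟨_, rfl⟩
  have hρ0 : 0 < ρ := by rw [hρ]; positivity
  have hρ2 : ρ / 2 = C3 / Q.card := by rw [hρ]; ring
  obtain ⟨A0, hA0⟩ : ∃ A0 : Finset (Fin (l.length + 1) × (Fin d → ZMod L)),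
    A0 = nodes.toFinset := ⟨_, rfl⟩
  have hA0mem : ∀ y, y ∈ A0 ↔ y ∈ nodes := fun y => by rw [hA0]; exact List.mem_toFinset
  have hcA : ∀ q y, stc l.length (envW S Q M0 (l.map Prod.fst)) q = some y → y ∈ A0 :=
    fun q y h => (hA0mem y).mpr ((hmem y).mpr ⟨q, h⟩)
  have hcard0 : (A0.card : ℝ) ≤ ((l.length : ℝ) + 1) * (L : ℝ) ^ d := by
    have h1 : A0.card ≤ Fintype.card (Fin (l.length + 1) × (Fin d → ZMod L)) :=
      Finset.card_le_univ _
    have h2 : Fintype.card (Fin (l.length + 1) × (Fin d → ZMod L)) = (l.length + 1) * L ^ d := by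
      rw [Fintype.card_prod, Fintype.card_fin, Fintype.card_fun, Fintype.card_fin, ZMod.card]
    rw [h2] at h1
    exact_mod_cast h1
  have hinv : ∀ y ∈ A0, ∀ z ∈ A0, ResLe (netA (stP l.length (envS S (l.map Prod.fst)) Φ⁻¹)⁻¹
      (stc l.length (envW S Q M0 (l.map Prod.fst))) A0) (ρ / 2) y z := by
    intro y hy z hz
    have h1 : netA (stP l.length (envS S (l.map Prod.fst)) Φ⁻¹)⁻¹
        (stc l.length (envW S Q M0 (l.map Prod.fst))) A0
        = mat (remS (stP l.length (envS S (l.map Prod.fst)) Φ⁻¹)⁻¹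
          (univ.filter fun w => stc l.length (envW S Q M0 (l.map Prod.fst)) w = none))
          (stc l.length (envW S Q M0 (l.map Prod.fst))) := by
      unfold netA
      rw [cOn_eq hcA]
    rw [h1]
    refine ResLe_mat_inv ?_
    rw [hρ2]
    refine netA_of_RB (by positivity) hRB ?_ ?_
    · exact (hmem y).mp ((hA0mem y).mp hy)
    · exact (hmem z).mp ((hA0mem z).mp hz)
  rw [hrepr]
  have hmark : ∀ u ∈ M0, stc l.length (envW S Q M0 (l.map Prod.fst))
      ((0 : Fin (l.length + 1)), u) = some ((0 : Fin (l.length + 1)), u) := by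
    intro u hu
    rw [hst u hu]
    exact ⟨rfl, by simpa using h0Q⟩
  have hUnif : ∀ u ∈ M0, TN.UnifAt (stc l.length (envW S Q M0 (l.map Prod.fst)))
      ((0 : Fin (l.length + 1)), u) (π ((0 : Fin (l.length + 1)), u)) := by
    intro u hu σ
    have h1 := hunif u hu σ
    rw [h1]
    have h2 := hcard _ ((hmem _).mpr ⟨_, hmark u hu⟩)
    have h3 : TN.fib (stc l.length (envW S Q M0 (l.map Prod.fst)))
        ((0 : Fin (l.length + 1)), u) = univ.filter fun q =>
        stc l.length (envW S Q M0 (l.map Prod.fst)) q = some ((0 : Fin (l.length + 1)), u) := rfl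
    rw [h3, h2]
    by_cases h4 : ∀ q, stc l.length (envW S Q M0 (l.map Prod.fst)) q
        ≠ some ((0 : Fin (l.length + 1)), u) → σ q = q
    · rw [if_pos h4, if_pos]
      rw [TN.mem_permsOn]
      intro q hq
      exact h4 q fun h => hq (by simp [h])
    · rw [if_neg h4, if_neg]
      rw [TN.mem_permsOn]
      intro h5
      exact h4 fun q hq => h5 q (by simpa using hq)
  have hA1 : (1 : ℝ) ≤ A0.card := by
    have : 0 < A0.card := Finset.card_pos.mpr ⟨_, hcA _ _ (hmark x hxM)⟩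
    exact_mod_cast this
  have key := hend (Fin (l.length + 1) × (Fin d → ZMod L)) (Fin (l.length + 1) × (Fin d → ZMod L))
    (stc l.length (envW S Q M0 (l.map Prod.fst))) Q.card ρ κ A0 π nodes
    (stP l.length (envS S (l.map Prod.fst)) Φ⁻¹)⁻¹
    ((0 : Fin (l.length + 1)), x) ((0 : Fin (l.length + 1)), y) ((0 : Fin (l.length + 1)), x)
    hρ0 ?_ hκ ?_ ?_ ?_ (fun y hy => hcard y ((hA0mem y).mp hy)) hcA hnd
    (fun y => (hA0mem y).symm) hdens hinv ?_ (hUnif x hxM) (hUnif y hyM) (hmark x hxM)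
    (hcA _ _ (hmark y hyM))
  · refine key.trans ?_
    have hC2' : C2 ≤ max C2 (2 * C3) := le_max_left _ _
    have hC3' : ρ ≤ max C2 (2 * C3) / Q.card := by
      rw [hρ]
      exact div_le_div_of_nonneg_right (le_max_right _ _) hN0.le
    refine add_le_add ?_ ?_
    · exact mul_le_mul_of_nonneg_left hC3' (by positivity)
    · refine mul_le_mul_of_nonneg_right ?_ (Real.exp_pos _).le
      refine mul_le_mul hC2' ?_ (by positivity) (by positivity)
      exact pow_le_pow_left₀ (by positivity) hcard0 2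
  · rw [hρ]
    field_simp
    exact le_rfl
  · refine le_trans ?_ hκN
    exact mul_le_mul_of_nonneg_right (le_max_left _ _) (by positivity)
  · refine le_trans ?_ hκlog
    have h1 : Real.log A0.card ≤ Real.log (((l.length : ℝ) + 1) * (L : ℝ) ^ d) :=
      Real.log_le_log (by linarith) hcard0
    have h2 : 0 ≤ Real.log (A0.card : ℝ) := Real.log_nonneg hA1
    refine mul_le_mul ?_ h1 h2 (by positivity)
    exact mul_le_mul_of_nonneg_right (le_max_left _ _) (by linarith)
  · refine le_trans ?_ hκexp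
    refine mul_le_mul_of_nonneg_right ?_ (Nat.cast_nonneg _)
    exact pow_le_pow_left₀ (by positivity) hcard0 6
  · intro h
    exact hxy (Prod.ext_iff.mp h).2

end Pool.Agent.PL

namespace Pool.Agent.Stirring.TN

open Pool.Agent.Stirring Pool.Agent.PL Filter

/-- **The cycle of `x` meets the window of a far point `y`**, with a rate. -/
theorem miss_of_env (d : ℕ) (hd : 2 ≤ d) {A B : ℕ} {c1 : ℝ} (hc1 : 0 < c1)
    (hev : ∀ᶠ L : ℕ in atTop, ∀ [NeZero L], EnvGood d A B c1 L) :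
    ∃ K : ℝ, 0 ≤ K ∧ ∀ᶠ L : ℕ in atTop, ∀ [NeZero L], ∃ b : ℕ, 1 ≤ b ∧ b ≤ L ∧
      (b : ℝ) ≤ Real.log L ^ A ∧ ∀ t : ℝ, Real.log L ^ (B + 2 * A * (d + 1) + 2) ≤ t →
        ∀ x y : Fin d → ZMod L, ¬ NearW (QK.box d L b) x y →
          expect d L t (missI (win1 (QK.box d L b) y) x) ≤ K / Real.sqrt (Real.log L) := by
  classical
  obtain ⟨C, hC, hin⟩ := inner_miss d hd c1 hc1
  have hpar := klaw_par d 0 (C * (7 * d + 7) ^ 2) 0 0 1 one_pos
  refine ⟨3 * C + 1 + 32 * d * Real.sqrt d, by positivity, ?_⟩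
  filter_upwards [hev, hpar] with L hE ⟨hL64, hK0, _, _, _⟩
  intro _
  obtain ⟨b, J, r, h, M, Kw, Ω, _, S, hb1, hbL, hlogb, hbA, hJ1, hJL, hh, hJh, hr8, hrL, hM, hMK,
    hbJ, hw0, hw1, hmix, hdis, hbad⟩ := hE
  refine ⟨b, hb1, hbL, hbA, ?_⟩
  intro t ht x y hxy
  have hL64' : (64 : ℝ) ≤ L := by exact_mod_cast hL64
  have hL0 : (0 : ℝ) < L := by linarith
  have hd0 : (2 : ℝ) ≤ d := by exact_mod_cast hd
  have hb1' : (1 : ℝ) ≤ b := by exact_mod_cast hb1
  have hbL' : (b : ℝ) ≤ L := by exact_mod_cast hbL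
  obtain ⟨n1, n2, n3, n4, n5, n6⟩ := kappa_num hd hL64' hC hJL hb1' hbL' hlogb hK0
  have hx1 : 1 ≤ Real.log L := by
    refine le_trans ?_ hK0
    nlinarith
  have hx0 : 0 < Real.log L := by linarith
  have htB : Real.log L ^ B ≤ t :=
    (pow_le_pow_right₀ hx1 (by omega)).trans ht
  have ht1 : 1 ≤ t := (one_le_pow₀ hx1).trans htB
  have hcard : (QK.box d L b).card = b ^ d := QK.card_box hbL
  have hcardR : ((QK.box d L b).card : ℝ) = (b : ℝ) ^ d := by rw [hcard]; push_cast; rfl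
  have hne : x ≠ y := by
    rintro rfl
    exact hxy ⟨0, zero_mem_box hb1, 0, zero_mem_box hb1, rfl⟩
  obtain ⟨M0, hM0⟩ : ∃ M0 : Finset (Fin d → ZMod L), M0 = {x, y} := ⟨_, rfl⟩
  have hxM : x ∈ M0 := by rw [hM0]; exact Finset.mem_insert_self _ _
  have hyM : y ∈ M0 := by
    rw [hM0]; exact Finset.mem_insert_of_mem (Finset.mem_singleton_self _)
  have hdM0 : QK.Dis (QK.box d L b) M0 := by
    intro q hq q' hq' w hw hw'
    rw [hM0, Finset.mem_insert, Finset.mem_singleton] at hq hq'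
    rcases hq with rfl | rfl <;> rcases hq' with rfl | rfl
    · rfl
    · exact absurd ⟨_, hw, _, hw', by abel⟩ hxy
    · exact absurd ⟨_, hw', _, hw, by abel⟩ hxy
    · rfl
  have hM0card : M0.card = 2 := by rw [hM0, Finset.card_pair hne]
  set F : Equiv.Perm (Fin d → ZMod L) → ℝ := missI (win1 (QK.box d L b) y) x with hF
  have hF0 : ∀ σ, 0 ≤ F σ := missI_nonneg _ _
  have hF1 : ∀ σ, F σ ≤ 1 := missI_le_one _ _
  -- the insertion
  set e : ℝ := 2 * (8 * (d * b * (b : ℝ) ^ d) * Real.sqrt (Real.log ((L : ℝ) ^ d) / t)) with he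
  have hone : ∀ y (s : Equiv.Perm (Fin d → ZMod L)), (∀ v, v - y ∉ QK.box d L b → s v = v) →
      ∀ H : Equiv.Perm (Fin d → ZMod L) → ℝ, (∀ x, 0 ≤ H x) → (∀ x, H x ≤ 1) →
        |expect d L t (fun x => H (x * s)) - expect d L t H| ≤ e := by
    intro y s hs H hH0 hH1
    have h1 := TC.expect_move (d := d) (L := L) (by omega) (by omega) ht1 hbL [s⁻¹]
      (fun g hg => ⟨y, fun w hw => by
        rw [List.mem_singleton.mp hg, Equiv.Perm.inv_eq_iff_eq]
        exact (hs w (box_box hw)).symm⟩) (F := H)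
      (fun σ => abs_le.mpr ⟨by linarith [hH0 σ], hH1 σ⟩)
    rw [List.prod_singleton, inv_inv, List.length_singleton, Nat.cast_one, one_mul] at h1
    exact h1
  have hins := insert_marked (by linarith : (0 : ℝ) ≤ t) hone M0 F hF0 hF1
  have heb : (M0.card : ℝ) * e ≤ 32 * d * Real.sqrt d / Real.sqrt (Real.log L) := by
    have h2 := cost_num (d := d) (A := A) (B := B) hx1 (by linarith : (0 : ℝ) ≤ b) hbA ht
    rw [hM0card, he, Real.log_pow]
    push_cast
    have h3 : (2 : ℝ) * (2 * (8 * (d * b * (b : ℝ) ^ d) * Real.sqrt (d * Real.log L / t))) =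
        32 * d * (b * (b : ℝ) ^ d * Real.sqrt (d * Real.log L / t)) := by ring
    rw [h3]
    refine (mul_le_mul_of_nonneg_left h2 (by positivity)).trans (le_of_eq ?_)
    rw [Real.sqrt_div (by linarith : (0 : ℝ) ≤ d)]
    ring
  -- the main part
  have hwn : ∀ y ∈ M0.toList, ∀ σ, 0 ≤ wUnif (QK.box d L b) y σ := by
    intro y _ σ
    unfold wUnif
    split_ifs
    · positivity
    · exact le_rfl
  have hws : ∀ y ∈ M0.toList, ∑ σ, wUnif (QK.box d L b) y σ = 1 := fun y _ => wUnif_sum9 _ y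
  set H : Equiv.Perm (Fin d → ZMod L) → ℝ :=
    fun g => JL (wUnif (QK.box d L b)) F M0.toList g with hH
  have hH0 : ∀ g, 0 ≤ H g := by
    intro g
    have h1 := JL_mono' (π := wUnif (QK.box d L b)) (G := fun _ => (0 : ℝ))
      (H := F) hF0 hwn g
    rwa [JL_const' 0 hws g] at h1
  have hH1 : ∀ g, H g ≤ 1 := by
    intro g
    have h1 := JL_mono' (π := wUnif (QK.box d L b)) (G := F)
      (H := fun _ => (1 : ℝ)) hF1 hwn g
    rwa [JL_const' 1 hws g] at h1
  set κ : ℝ := (7 * d + 7) * Real.log L with hκ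
  set err : ℝ := 2 * (C / (b : ℝ) ^ d)
    + C * (((J : ℝ) + 1) * (L : ℝ) ^ d) ^ 2 * Real.exp (-(κ / 2)) with herr
  have herr0 : 0 ≤ err := by positivity
  have hmain := assemble (c := QK.tr d L) QK.tr_nonneg hh (t' := t - J * h) (by linarith) hmix hw0
    hw1 J hH0 hH1 (c0 := 0) le_rfl zero_le_one
    (fun l => GoodEnv (envS S l) (envW S (QK.box d L b) M0 l) J (b ^ d) r c1 M Kw)
    (err := err) (δ := 1 / L) herr0 ?_ (hbad M0 hdM0)
  · have h2 : (J : ℝ) * h + (t - J * h) = t := by ring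
    rw [h2, ← QK.expect_eq, sub_zero] at hmain
    have hsq : Real.sqrt (Real.log L) ≤ Real.log L := by
      rw [Real.sqrt_le_left hx0.le]
      nlinarith
    have hsq0 : 0 < Real.sqrt (Real.log L) := Real.sqrt_pos.mpr hx0
    have h3 : err + 1 / L ≤ (3 * C + 1) / Real.sqrt (Real.log L) := by
      have h4 : 1 / (L : ℝ) ≤ 1 / Real.log L :=
        one_div_le_one_div_of_le hx0 (Real.log_le_self hL0.le)
      have h5 : C / (L : ℝ) ≤ C / Real.log L :=
        div_le_div_of_nonneg_left (by linarith) hx0 (Real.log_le_self hL0.le)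
      have h6 : err ≤ 2 * (C / Real.log L) + C / Real.log L :=
        add_le_add (mul_le_mul_of_nonneg_left n5 (by norm_num)) (n6.trans h5)
      calc err + 1 / L ≤ 2 * (C / Real.log L) + C / Real.log L + 1 / Real.log L :=
            add_le_add h6 h4
        _ = (3 * C + 1) / Real.log L := by ring
        _ ≤ _ := div_le_div_of_nonneg_left (by positivity) hsq0 hsq
    have h7 := (abs_le.mp hmain).2
    have h8 := (abs_le.mp hins).1
    have h9 : (3 * C + 1 + 32 * d * Real.sqrt d) / Real.sqrt (Real.log L) =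
        (3 * C + 1) / Real.sqrt (Real.log L) + 32 * d * Real.sqrt d / Real.sqrt (Real.log L) := by
      ring
    rw [h9]
    linarith
  · intro Φ l hlJ hl hg
    have h1 := hin L Ω S (QK.box d L b) l M0 Φ x y r M Kw κ (zero_mem_box hb1)
      (by omega) hr8 hrL hM (by rw [hlJ, hcard]; exact hg) (by rw [hcardR]; exact hMK)
      (by rw [hcardR, hlJ]; exact hbJ) hl hdis hdM0 hxM hyM hne n1 (by rw [hcardR]; exact n2)
      (by rw [hcardR, hlJ]; exact n3) (by rw [hcardR, hlJ]; exact n4)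
    rw [hcardR, hlJ] at h1
    rw [sub_zero, abs_of_nonneg]
    · exact h1
    · rw [← JS_const (S := S) 0 hl 1]
      exact JS_mono (fun η => hH0 _) hl 1

end Pool.Agent.Stirring.TN

namespace Pool.Agent.Stirring.TN

open Pool.Agent.Stirring Pool.Agent.PL Filter

/-- The number of windows which meet a set. -/
theorem hit_card {d L : ℕ} [NeZero L] (Q C : Finset (Fin d → ZMod L)) : open Classical in
    (univ.filter fun y => ∃ v ∈ win1 Q y, v ∈ C).card ≤ C.card * Q.card := by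
  classical
  have h1 : (univ.filter fun y => ∃ v ∈ win1 Q y, v ∈ C) ⊆ (C ×ˢ Q).image fun p => p.1 - p.2 := by
    intro y hy
    obtain ⟨v, hv, hvC⟩ := (Finset.mem_filter.mp hy).2
    rw [Finset.mem_image]
    exact ⟨(v, v - y), Finset.mem_product.mpr ⟨hvC, mem_win1.mp hv⟩, by
      show v - (v - y) = y
      abel⟩
  exact (Finset.card_le_card h1).trans (Finset.card_image_le.trans (Finset.card_product _ _).le)

/-- If the cycle of `x` is short, it misses at least half of the windows of far points. -/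
theorem short_le_miss {d L : ℕ} [NeZero L] (Q : Finset (Fin d → ZMod L)) {m : ℕ}
    (hm : (m : ℝ) * Q.card ≤ (L : ℝ) ^ d / 4) (hQ : (Q.card : ℝ) ^ 2 ≤ (L : ℝ) ^ d / 4)
    (x : Fin d → ZMod L) (σ : Equiv.Perm (Fin d → ZMod L)) : open Classical in
    (if (cyc σ x).card ≤ m then (1 : ℝ) else 0) ≤
      ∑ y ∈ univ.filter (fun y => ¬ NearW Q x y), 2 / (L : ℝ) ^ d * missI (win1 Q y) x σ := by
  classical
  have hL : (0 : ℝ) < (L : ℝ) ^ d := by
    have : (0 : ℝ) < L := by exact_mod_cast Nat.pos_of_ne_zero (NeZero.ne L)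
    positivity
  have hnn : 0 ≤ ∑ y ∈ univ.filter (fun y => ¬ NearW Q x y),
      2 / (L : ℝ) ^ d * missI (win1 Q y) x σ :=
    Finset.sum_nonneg fun y _ => mul_nonneg (by positivity) (missI_nonneg _ _ _)
  split_ifs with h
  · -- the numbers of the far points and of the points which are hit
    have h1 : ((univ.filter fun y => NearW Q x y).card : ℝ) ≤ (L : ℝ) ^ d / 4 :=
      (nearW_card Q x).trans hQ
    have h2 : ((univ.filter fun y => ∃ v ∈ win1 Q y, v ∈ cyc σ x).card : ℝ) ≤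
        (L : ℝ) ^ d / 4 := by
      have h3 : ((univ.filter fun y => ∃ v ∈ win1 Q y, v ∈ cyc σ x).card : ℝ) ≤
          (cyc σ x).card * Q.card := by exact_mod_cast hit_card Q (cyc σ x)
      refine h3.trans (le_trans ?_ hm)
      exact mul_le_mul_of_nonneg_right (by exact_mod_cast h) (Nat.cast_nonneg _)
    have h4 : (Fintype.card (Fin d → ZMod L) : ℝ) = (L : ℝ) ^ d := by
      rw [Fintype.card_fun, Fintype.card_fin, ZMod.card]
      push_cast
      rfl
    have h5 : (L : ℝ) ^ d / 2 ≤ ∑ y ∈ univ.filter (fun y => ¬ NearW Q x y),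
        missI (win1 Q y) x σ := by
      have h6 : ∀ y, 1 - (if NearW Q x y then (1 : ℝ) else 0) -
          (if ∃ v ∈ win1 Q y, v ∈ cyc σ x then (1 : ℝ) else 0) ≤
          if ¬ NearW Q x y then missI (win1 Q y) x σ else 0 := by
        intro y
        by_cases h7 : NearW Q x y
        · rw [if_pos h7, if_neg (not_not.mpr h7)]
          split_ifs <;> norm_num
        · rw [if_neg h7, if_pos h7]
          by_cases h8 : ∃ v ∈ win1 Q y, v ∈ cyc σ x
          · rw [if_pos h8]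
            have := missI_nonneg (win1 Q y) x σ
            linarith
          · rw [if_neg h8]
            unfold missI
            rw [if_neg]
            · norm_num
            · rintro ⟨v, hv, hc⟩
              exact h8 ⟨v, hv, mem_cyc.mpr hc⟩
      have h9 := Finset.sum_le_sum fun y (_ : y ∈ (univ : Finset (Fin d → ZMod L))) => h6 y
      rw [Finset.sum_sub_distrib, Finset.sum_sub_distrib, Finset.sum_boole, Finset.sum_boole,
        ← Finset.sum_filter, Finset.sum_const, Finset.card_univ, nsmul_eq_mul, mul_one, h4] at h9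
      linarith
    rw [← Finset.mul_sum]
    calc (1 : ℝ) = 2 / (L : ℝ) ^ d * ((L : ℝ) ^ d / 2) := by field_simp
      _ ≤ _ := mul_le_mul_of_nonneg_left h5 (by positivity)
  · exact hnn

/-- **No short cycles**, with a rate. -/
theorem short_of_env (d : ℕ) (hd : 2 ≤ d) {A B : ℕ} {c1 : ℝ} (hc1 : 0 < c1)
    (hev : ∀ᶠ L : ℕ in atTop, ∀ [NeZero L], EnvGood d A B c1 L) :
    ∃ K : ℝ, 0 ≤ K ∧ ∀ᶠ L : ℕ in atTop, ∀ [NeZero L], ∀ t : ℝ,
      Real.log L ^ (B + 2 * A * (d + 1) + 2) ≤ t → ∀ (x : Fin d → ZMod L) (m : ℕ),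
        (m : ℝ) ≤ (L : ℝ) ^ d / (4 * Real.log L ^ (A * d)) →
          expect d L t (fun σ => if (cyc σ x).card ≤ m then (1 : ℝ) else 0) ≤
            K / Real.sqrt (Real.log L) := by
  classical
  obtain ⟨K, hK, hev2⟩ := miss_of_env d hd hc1 hev
  have hpar := klaw_par d (2 * (d * A)) 1 0 0 (1 / 4) (by norm_num)
  refine ⟨2 * K, by positivity, ?_⟩
  filter_upwards [hev2, hpar] with L hE ⟨hL64, hK0, hK1, _, _⟩
  intro _ t ht x m hm
  obtain ⟨b, hb1, hbL, hbA, hmiss⟩ := hE
  have hx0 : 0 < Real.log L := by linarith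
  have hL64' : (64 : ℝ) ≤ L := by exact_mod_cast hL64
  have hLd : (L : ℝ) ≤ (L : ℝ) ^ d := by
    calc (L : ℝ) = (L : ℝ) ^ 1 := (pow_one _).symm
      _ ≤ (L : ℝ) ^ d := pow_le_pow_right₀ (by linarith) (by omega)
  have hLd0 : (0 : ℝ) < (L : ℝ) ^ d := by positivity
  have hb0 : (0 : ℝ) ≤ b := Nat.cast_nonneg _
  have hcardR : ((QK.box d L b).card : ℝ) = (b : ℝ) ^ d := by
    rw [QK.card_box hbL]; push_cast; rfl
  have hbd : (b : ℝ) ^ d ≤ Real.log L ^ (A * d) := by
    rw [pow_mul]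
    exact pow_le_pow_left₀ hb0 hbA d
  have ht0 : 0 ≤ t := le_trans (by positivity) ht
  have h1 : ((QK.box d L b).card : ℝ) ^ 2 ≤ (L : ℝ) ^ d / 4 := by
    rw [hcardR]
    calc ((b : ℝ) ^ d) ^ 2 ≤ (Real.log L ^ (A * d)) ^ 2 :=
          pow_le_pow_left₀ (by positivity) hbd 2
      _ = Real.log L ^ (2 * (d * A)) := by rw [← pow_mul]; congr 1; ring
      _ ≤ 1 / 4 * L := hK1
      _ ≤ (L : ℝ) ^ d / 4 := by linarith
  have h2 : (m : ℝ) * (QK.box d L b).card ≤ (L : ℝ) ^ d / 4 := by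
    rw [hcardR]
    have h3 : (0 : ℝ) < Real.log L ^ (A * d) := by positivity
    calc (m : ℝ) * (b : ℝ) ^ d ≤ (L : ℝ) ^ d / (4 * Real.log L ^ (A * d)) * Real.log L ^ (A * d) :=
          mul_le_mul hm hbd (by positivity) (by positivity)
      _ = (L : ℝ) ^ d / 4 := by field_simp
  have h4 := expect_mono (d := d) (L := L) ht0 (short_le_miss (QK.box d L b) h2 h1 x)
  refine h4.trans ?_
  rw [g5_expect_sum]
  have h5 : ∀ y ∈ univ.filter (fun y => ¬ NearW (QK.box d L b) x y),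
      2 / (L : ℝ) ^ d * expect d L t (missI (win1 (QK.box d L b) y) x) ≤
        2 / (L : ℝ) ^ d * (K / Real.sqrt (Real.log L)) := by
    intro y hy
    exact mul_le_mul_of_nonneg_left (hmiss t ht x y (Finset.mem_filter.mp hy).2) (by positivity)
  refine (Finset.sum_le_sum h5).trans ?_
  rw [Finset.sum_const, nsmul_eq_mul]
  have h6 : ((univ.filter fun y => ¬ NearW (QK.box d L b) x y).card : ℝ) ≤ (L : ℝ) ^ d := by
    have h7 : (univ.filter fun y => ¬ NearW (QK.box d L b) x y).card ≤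
        Fintype.card (Fin d → ZMod L) := Finset.card_le_univ _
    rw [Fintype.card_fun, Fintype.card_fin, ZMod.card] at h7
    exact_mod_cast h7
  calc ((univ.filter fun y => ¬ NearW (QK.box d L b) x y).card : ℝ) *
      (2 / (L : ℝ) ^ d * (K / Real.sqrt (Real.log L))) ≤
      (L : ℝ) ^ d * (2 / (L : ℝ) ^ d * (K / Real.sqrt (Real.log L))) :=
        mul_le_mul_of_nonneg_right h6 (by positivity)
    _ = 2 * K / Real.sqrt (Real.log L) := by field_simp

end Pool.Agent.Stirring.TN
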