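import Pool.Agent.Lib.MP_6c3d62_pr.Mg.G052

/-! Fixed times: finite speed (comparison of two sets of rates on a local function). -/

set_option autoImplicit false
set_option linter.unusedSectionVars false

open Finset

namespace Pool.Agent.Stirring.FT

open Hier QK

variable {V : Type*} [Fintype V] [DecidableEq V]

/-- `f σ` depends only on the values `σ⁻¹ a`, `a ∈ A`. -/
def LocA (A : Finset V) (f : Fn V) : Prop :=
  ∀ σ τ : Equiv.Perm V, (∀ a ∈ A, σ.symm a = τ.symm a) → f σ = f τ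

lemma mul_swap_symm (σ : Equiv.Perm V) (x y a : V) :
    (σ * Equiv.swap x y).symm a = Equiv.swap x y (σ.symm a) := rfl

lemma locA_step (c : V × V → ℝ) {A : Finset V} {f : Fn V} (h : LocA A f) : LocA A (stepT c f) := by
  intro σ τ hst
  rw [stepT_apply, stepT_apply]
  refine Finset.sum_congr rfl fun p _ => ?_
  rw [h (σ * Equiv.swap p.1 p.2) (τ * Equiv.swap p.1 p.2) fun a ha => by
    rw [mul_swap_symm, mul_swap_symm, hst a ha]]

lemma locA_pow (c : V × V → ℝ) {A : Finset V} {f : Fn V} (h : LocA A f) (n : ℕ) :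
    LocA A ((stepT c ^ n) f) := by
  induction n with
  | zero => simpa using h
  | succ n ih =>
    rw [pow_succ']
    exact locA_step c ih

lemma locA_sg (c : V × V → ℝ) (s : ℝ) {A : Finset V} {f : Fn V} (h : LocA A f) :
    LocA A (sg c s f) := by
  intro σ τ hst
  have h1 := sg_hasSum c s f σ
  have e : (fun n : ℕ => Real.exp (-(s * tot c)) * (s ^ n / n.factorial * ((stepT c ^ n) f σ))) =
      fun n : ℕ => Real.exp (-(s * tot c)) * (s ^ n / n.factorial * ((stepT c ^ n) f τ)) := by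
    funext n
    rw [locA_pow c h n σ τ hst]
  rw [e] at h1
  exact h1.unique (sg_hasSum c s f τ)

lemma sg_nn {c : V × V → ℝ} (hc : ∀ p, 0 ≤ c p) {f : Fn V} (hf : ∀ σ, 0 ≤ f σ) {s : ℝ}
    (hs : 0 ≤ s) (σ : Equiv.Perm V) : 0 ≤ sg c s f σ :=
  sg_nonneg_on hc (stab_univ c) (fun σ _ => hf σ) hs σ (Set.mem_univ _)

lemma sg_mono {c : V × V → ℝ} (hc : ∀ p, 0 ≤ c p) {f g : Fn V} (hfg : ∀ σ, f σ ≤ g σ) {s : ℝ}
    (hs : 0 ≤ s) (σ : Equiv.Perm V) : sg c s f σ ≤ sg c s g σ :=
  sg_mono_on hc (stab_univ c) (fun σ _ => hfg σ) hs σ (Set.mem_univ _)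

lemma sg_le_one {c : V × V → ℝ} (hc : ∀ p, 0 ≤ c p) {f : Fn V} (hf : ∀ σ, f σ ≤ 1) {s : ℝ}
    (hs : 0 ≤ s) (σ : Equiv.Perm V) : sg c s f σ ≤ 1 := by
  have h := sg_mono hc (g := fun _ => (1 : ℝ)) hf hs σ
  rwa [sg_const] at h

/-- A further ring changes a local function only if it touches a followed particle. -/
lemma jump_le {A : Finset V} {g : Fn V} (hg : LocA A g) (h0 : ∀ σ, 0 ≤ g σ) (h1 : ∀ σ, g σ ≤ 1)
    (σ : Equiv.Perm V) (x y : V) : |g (σ * Equiv.swap x y) - g σ| ≤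
      ∑ a ∈ A, ((if σ.symm a = x then (1 : ℝ) else 0) + (if σ.symm a = y then (1 : ℝ) else 0)) := by
  have hnn : ∀ a ∈ A, (0 : ℝ) ≤ (if σ.symm a = x then (1 : ℝ) else 0) +
      (if σ.symm a = y then (1 : ℝ) else 0) := by
    intro a _
    split_ifs <;> norm_num
  by_cases h : ∃ a ∈ A, σ.symm a = x ∨ σ.symm a = y
  · obtain ⟨a, ha, hxy⟩ := h
    have h2 : |g (σ * Equiv.swap x y) - g σ| ≤ 1 := by
      rw [abs_le]
      constructor <;> linarith [h0 σ, h1 σ, h0 (σ * Equiv.swap x y), h1 (σ * Equiv.swap x y)]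
    refine h2.trans (le_trans ?_ (Finset.single_le_sum hnn ha))
    rcases hxy with h3 | h3
    · rw [if_pos h3]
      split_ifs <;> norm_num
    · rw [if_pos h3]
      split_ifs <;> norm_num
  · push Not at h
    have h2 : g (σ * Equiv.swap x y) = g σ := by
      refine hg _ _ fun a ha => ?_
      rw [mul_swap_symm]
      exact Equiv.swap_apply_of_ne_of_ne (h a ha).1 (h a ha).2
    rw [h2, sub_self, abs_zero]
    exact Finset.sum_nonneg hnn

lemma key_ring {R : Type*} [Ring R] (X A B Y : R) :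
    X * A * Y + X * (-(B * Y)) = X * ((A - B) * Y) := by
  rw [sub_mul, mul_sub, mul_neg, mul_assoc, sub_eq_add_neg]

/-- Duhamel's formula as an inequality. -/
theorem duhamel (c c' : V × V → ℝ) (f : Fn V) (σ : Equiv.Perm V) {t B : ℝ} (ht : 0 ≤ t)
    (hB : ∀ s, 0 ≤ s → s ≤ t → |sg c s ((gen c - gen c') (sg c' (t - s) f)) σ| ≤ B) :
    |sg c t f σ - sg c' t f σ| ≤ B * t := by
  have hd : ∀ s : ℝ, HasDerivAt (fun u => (sg c u * sg c' (t - u)) f σ)
      (sg c s ((gen c - gen c') (sg c' (t - s) f)) σ) s := by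
    intro s
    have h1 : HasDerivAt (fun u : ℝ => NormedSpace.exp (u • gen c))
        (NormedSpace.exp (s • gen c) * gen c) s := hasDerivAt_exp_smul_const (𝕂 := ℝ) (gen c) s
    have h2 : HasDerivAt (fun u : ℝ => NormedSpace.exp (u • gen c'))
        (gen c' * NormedSpace.exp ((t - s) • gen c')) (t - s) :=
      hasDerivAt_exp_smul_const' (𝕂 := ℝ) (gen c') (t - s)
    have h4 : HasDerivAt (fun u : ℝ => NormedSpace.exp ((t - u) • gen c'))
        (-(gen c' * NormedSpace.exp ((t - s) • gen c'))) s := HasDerivAt.comp_const_sub t s h2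
    have h5 := h1.mul h4
    have h6 := (ev f σ).hasFDerivAt.comp_hasDerivAt s h5
    have e : (ev f σ) (NormedSpace.exp (s • gen c) * gen c * NormedSpace.exp ((t - s) • gen c') +
        NormedSpace.exp (s • gen c) * (-(gen c' * NormedSpace.exp ((t - s) • gen c')))) =
        sg c s ((gen c - gen c') (sg c' (t - s) f)) σ := by
      have e1 : NormedSpace.exp (s • gen c) * gen c * NormedSpace.exp ((t - s) • gen c') +
        NormedSpace.exp (s • gen c) * (-(gen c' * NormedSpace.exp ((t - s) • gen c'))) =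
        sg c s * ((gen c - gen c') * sg c' (t - s)) := by
        exact key_ring _ _ _ _
      rw [e1]
      rfl
    rw [e] at h6
    exact h6
  have h := (convex_Icc (0 : ℝ) t).norm_image_sub_le_of_norm_hasDerivWithin_le
    (f := fun u => (sg c u * sg c' (t - u)) f σ)
    (f' := fun s => sg c s ((gen c - gen c') (sg c' (t - s) f)) σ) (C := B)
    (fun s _ => (hd s).hasDerivWithinAt) (fun s hs => by
      rw [Real.norm_eq_abs]; exact hB s hs.1 hs.2) (Set.left_mem_Icc.2 ht)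
    (Set.right_mem_Icc.2 ht)
  have e0 : (sg c 0 * sg c' (t - 0)) f σ = sg c' t f σ := by
    show sg c 0 (sg c' (t - 0) f) σ = _
    rw [sg_zero, sub_zero]
  have e1 : (sg c t * sg c' (t - t)) f σ = sg c t f σ := by
    show sg c t (sg c' (t - t) f) σ = _
    rw [sub_self]
    have : sg c' 0 f = f := funext fun τ => sg_zero c' f τ
    rw [this]
  rw [e0, e1, Real.norm_eq_abs, Real.norm_eq_abs, sub_zero, abs_of_nonneg ht] at h
  exact h

/-- Total rate at `x` of the removed edges. -/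
noncomputable def rem (c c' : V × V → ℝ) (x : V) : ℝ :=
  ∑ p : V × V, (c p - c' p) * ((if x = p.1 then (1 : ℝ) else 0) + (if x = p.2 then (1 : ℝ) else 0))

/-- **Finite speed.** -/
theorem speed {c c' : V × V → ℝ} (hc : ∀ p, 0 ≤ c p) (hc' : ∀ p, 0 ≤ c' p)
    (hcc : ∀ p, c' p ≤ c p) {A : Finset V} {f : Fn V} (hf : LocA A f) (h0 : ∀ σ, 0 ≤ f σ)
    (h1 : ∀ σ, f σ ≤ 1) {t B : ℝ} (ht : 0 ≤ t)
    (hB : ∀ s, 0 ≤ s → s ≤ t → ∑ a ∈ A, heat c s (rem c c') a ≤ B) :
    |sg c t f 1 - sg c' t f 1| ≤ B * t := by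
  refine duhamel c c' f 1 ht fun s hs hst => ?_
  have hts : 0 ≤ t - s := by linarith
  set g : Fn V := sg c' (t - s) f with hg
  have hg0 : ∀ σ, 0 ≤ g σ := fun σ => sg_nn hc' h0 hts σ
  have hg1 : ∀ σ, g σ ≤ 1 := fun σ => sg_le_one hc' h1 hts σ
  have hgl : LocA A g := locA_sg c' (t - s) hf
  -- pointwise bound
  have hpt : ∀ σ, |(gen c - gen c') g σ| ≤ ∑ a ∈ A, rem c c' (σ.symm a) := by
    intro σ
    have e1 : (gen c - gen c') g σ = ∑ p : V × V, (c p - c' p) *
        (g (σ * Equiv.swap p.1 p.2) - g σ) := by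
      show gen c g σ - gen c' g σ = _
      rw [gen_apply, gen_apply, ← Finset.sum_sub_distrib]
      exact Finset.sum_congr rfl fun p _ => by ring
    rw [e1]
    refine (Finset.abs_sum_le_sum_abs _ _).trans ?_
    have e2 : ∑ a ∈ A, rem c c' (σ.symm a) = ∑ p : V × V, (c p - c' p) *
        ∑ a ∈ A, ((if σ.symm a = p.1 then (1 : ℝ) else 0) +
          (if σ.symm a = p.2 then (1 : ℝ) else 0)) := by
      unfold rem
      rw [Finset.sum_comm]
      refine Finset.sum_congr rfl fun p _ => ?_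
      rw [Finset.mul_sum]
    rw [e2]
    refine Finset.sum_le_sum fun p _ => ?_
    have h2 : 0 ≤ c p - c' p := by linarith [hcc p]
    rw [abs_mul, abs_of_nonneg h2]
    exact mul_le_mul_of_nonneg_left (jump_le hgl hg0 hg1 σ p.1 p.2) h2
  -- apply the semigroup
  have hup : sg c s ((gen c - gen c') g) 1 ≤ sg c s (fun σ => ∑ a ∈ A, rem c c' (σ.symm a)) 1 :=
    sg_mono hc (fun σ => (le_abs_self _).trans (hpt σ)) hs 1
  have hdn : -(sg c s (fun σ => ∑ a ∈ A, rem c c' (σ.symm a)) 1) ≤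
      sg c s ((gen c - gen c') g) 1 := by
    have h3 : sg c s (fun σ => -(∑ a ∈ A, rem c c' (σ.symm a))) 1 ≤
        sg c s ((gen c - gen c') g) 1 :=
      sg_mono hc (fun σ => by linarith [neg_abs_le ((gen c - gen c') g σ), hpt σ]) hs 1
    have h4 : (fun σ : Equiv.Perm V => -(∑ a ∈ A, rem c c' (σ.symm a))) =
        (-1 : ℝ) • (fun σ : Equiv.Perm V => ∑ a ∈ A, rem c c' (σ.symm a)) := by
      funext σ
      simp
    rw [h4, sg_smul] at h3
    linarith
  have hsum : sg c s (fun σ => ∑ a ∈ A, rem c c' (σ.symm a)) 1 = ∑ a ∈ A, heat c s (rem c c') a := by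
    have h5 : (fun σ : Equiv.Perm V => ∑ a ∈ A, rem c c' (σ.symm a)) =
        ∑ a ∈ A, (fun σ : Equiv.Perm V => rem c c' (σ.symm a)) := by
      funext σ
      rw [Finset.sum_apply]
    rw [h5, map_sum, Finset.sum_apply]
    exact Finset.sum_congr rfl fun a _ => sg_one c s _ a
  rw [hsum] at hup hdn
  have := hB s hs hst
  rw [abs_le]
  constructor <;> linarith

end Pool.Agent.Stirring.FT
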