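import Pool.Agent.Lib.MP_6c3d62_pr.FT.FinR
import Pool.Agent.Lib.MP_6c3d62_pr.FT.Miss
import Pool.Agent.Lib.MP_6c3d62_pr.PL.Top

/-! No short cycles at a fixed time: the assembly. -/

set_option autoImplicit false
set_option linter.unusedSectionVars false

open Finset Filter

namespace Pool.Agent.Stirring.FT

open Hier QK TN

/-- The bound for the tori whose side is at most `exp (t ^ (1 / C))`. -/
theorem short_rate (d : ℕ) (hd : 2 ≤ d) : ∃ C : ℝ, 1 ≤ C ∧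
    ∃ (K : ℝ) (L₀ : ℕ), ∀ (L : ℕ) [NeZero L], L₀ ≤ L → ∀ t : ℝ, (Real.log L) ^ C ≤ t →
      ∀ (x : Fin d → ZMod L) (m : ℕ), (m : ℝ) ≤ L →
        pShort d L t x m ≤ K / Real.sqrt (Real.log L) := by
  obtain ⟨A, B, c1, hc1, hev⟩ := Pool.Agent.PL.env_good d hd
  obtain ⟨K, -, hK⟩ := short_of_env d hd hc1 hev
  have hpar := klaw_par d (A * d) 1 0 0 (1 / 4) (by norm_num)
  obtain ⟨L₀, hL₀⟩ := eventually_atTop.mp (hK.and hpar)
  refine ⟨((B + 2 * A * (d + 1) + 2 : ℕ) : ℝ), ?_, K, L₀, ?_⟩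
  · exact_mod_cast (by omega : 1 ≤ B + 2 * A * (d + 1) + 2)
  intro L _ hL t ht x m hm
  obtain ⟨hs, hL64, hK0, hK1, -, -⟩ := hL₀ L hL
  rw [Real.rpow_natCast] at ht
  refine hs t ht x m (hm.trans ?_)
  have hx0 : 0 < Real.log L := by linarith
  have hL64' : (64 : ℝ) ≤ L := by exact_mod_cast hL64
  rw [le_div_iff₀ (by positivity)]
  have h1 : (L : ℝ) * (4 * Real.log L ^ (A * d)) ≤ (L : ℝ) ^ 2 := by nlinarith
  refine h1.trans (pow_le_pow_right₀ (by linarith) hd)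

/-- **No short cycles at a fixed time.** -/
theorem fixed_time_main (d : ℕ) (hd : 2 ≤ d) :
    ∃ c a : ℝ, 0 < c ∧ 0 < a ∧ ∃ t₀ : ℝ, ∀ t : ℝ, t₀ ≤ t → ∀ (L : ℕ) [NeZero L],
      Real.exp (t ^ c) ≤ L → ∀ x : Fin d → ZMod L,
        expect d L t (fun σ => if ((cyc σ x).card : ℝ) ≤ Real.exp (t ^ c) then (1 : ℝ) else 0) ≤
          t ^ (-a) := by
  obtain ⟨C, hC, H⟩ := short_rate d hd
  exact fixed_time_rate hd hC H

end Pool.Agent.Stirring.FT
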