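import Pool.Agent.Lib.MP_6c3d62_pr.FT.Box

/-! Fixed times: comparison of two tori. -/

set_option autoImplicit false
set_option linter.unusedSectionVars false

open Finset

namespace Pool.Agent.Stirring.FT

open Hier QK

section cyc
variable {V : Type*} [Fintype V] [DecidableEq V]

/-- A cycle of length at most `m`, in terms of the powers of `σ⁻¹`. -/
lemma card_cyc_le_iff (σ : Equiv.Perm V) (x : V) (m : ℕ) :
    (cyc σ x).card ≤ m ↔ ∃ k, 1 ≤ k ∧ k ≤ m ∧ (σ⁻¹ ^ k) x = x := by
  classical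
  have hsc : ∀ j : ℕ, (σ⁻¹ ^ j) x ∈ cyc σ x := by
    intro j
    rw [mem_cyc]
    exact ⟨-(j : ℤ), by rw [zpow_neg, zpow_natCast, inv_pow]⟩
  constructor
  · intro h
    have hlt : (cyc σ x).card < (range ((cyc σ x).card + 1)).card := by simp
    obtain ⟨i, hi, j, hj, hij, he⟩ := Finset.exists_ne_map_eq_of_card_lt_of_maps_to hlt
      (f := fun j => (σ⁻¹ ^ j) x) (fun j _ => hsc j)
    rw [Finset.mem_range] at hi hj
    have main : ∀ i j : ℕ, i < j → j < (cyc σ x).card + 1 → (σ⁻¹ ^ i) x = (σ⁻¹ ^ j) x →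
        ∃ k, 1 ≤ k ∧ k ≤ m ∧ (σ⁻¹ ^ k) x = x := by
      intro i j hij hj he
      refine ⟨j - i, by omega, by omega, ?_⟩
      have e1 : σ⁻¹ ^ j = σ⁻¹ ^ i * σ⁻¹ ^ (j - i) := by
        rw [← pow_add]; congr 1; omega
      rw [e1, Equiv.Perm.mul_apply] at he
      exact ((σ⁻¹ ^ i).injective he).symm
    rcases lt_or_gt_of_ne hij with h1 | h1
    · exact main i j h1 hj he
    · exact main j i h1 hi he.symm
  · rintro ⟨k, h1, h2, h3⟩
    have hsub : cyc σ x ⊆ (range k).image (fun j => (σ⁻¹ ^ j) x) := by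
      intro y hy
      rw [mem_cyc] at hy
      obtain ⟨i, hi⟩ := hy
      have e1 : (σ⁻¹ ^ (-i)) x = y := by
        rw [inv_zpow', neg_neg]; exact hi
      have hk : (k : ℤ) ≠ 0 := by omega
      have e2 : -i = (-i) % k + k * ((-i) / k) := (Int.emod_add_mul_ediv (-i) k).symm
      have e3 : ((σ⁻¹ ^ ((k : ℤ) * ((-i) / k))) x) = x := by
        rw [zpow_mul, zpow_natCast]
        exact Equiv.Perm.zpow_apply_eq_self_of_apply_eq_self h3 _
      have e4 : (σ⁻¹ ^ ((-i) % k)) x = y := by
        rw [← e1]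
        conv_rhs => rw [e2, zpow_add, Equiv.Perm.mul_apply, e3]
      have h5 := Int.emod_nonneg (-i) hk
      have h6 := Int.emod_lt_of_pos (-i) (show (0 : ℤ) < k by omega)
      rw [Finset.mem_image]
      refine ⟨((-i) % k).toNat, ?_, ?_⟩
      · rw [Finset.mem_range]; omega
      · have e5 : (((-i) % k).toNat : ℤ) = (-i) % k := Int.toNat_of_nonneg h5
        rw [← zpow_natCast, e5]
        exact e4
    exact ((Finset.card_le_card hsub).trans (Finset.card_image_le)).trans (by simpa using h2)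

open Classical in
lemma locA_shortIn (A : Finset V) (m : ℕ) (x : V) :
    LocA A (fun σ => if shortIn A m x σ then (1 : ℝ) else 0) := by
  have key : ∀ σ τ : Equiv.Perm V, (∀ a ∈ A, σ.symm a = τ.symm a) →
      shortIn A m x σ → shortIn A m x τ := by
    intro σ τ h ⟨k, h1, h2, h3, h4⟩
    have h5 : ∀ j, j ≤ k → (τ⁻¹ ^ j) x = (σ⁻¹ ^ j) x := by
      intro j
      induction j with
      | zero => intro _; simp
      | succ j ih =>
        intro hj
        have e1 := ih (by omega)
        rw [pow_succ', pow_succ', Equiv.Perm.mul_apply, Equiv.Perm.mul_apply, e1]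
        exact (h _ (h4 j (by omega))).symm
    refine ⟨k, h1, h2, by rw [h5 k le_rfl, h3], fun j hj => ?_⟩
    rw [h5 j hj.le]
    exact h4 j hj
  intro σ τ h
  have e : shortIn A m x σ ↔ shortIn A m x τ :=
    ⟨key σ τ h, key τ σ fun a ha => (h a ha).symm⟩
  by_cases hs : shortIn A m x σ
  · simp only [if_pos hs, if_pos (e.1 hs)]
  · simp only [if_neg hs, if_neg (fun h' => hs (e.2 h'))]

end cyc

section torus
variable {d L : ℕ} [NeZero L]

lemma nrm_add_le (x y : Fin d → ZMod L) : nrm (x + y) ≤ nrm x + nrm y := by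
  unfold nrm
  refine Finset.sup_le fun i _ => ?_
  have h1 := ZMod.natAbs_valMinAbs_add_le (x i) (y i)
  have h2 : ((x i).valMinAbs + (y i).valMinAbs).natAbs ≤ (x i).valMinAbs.natAbs +
      (y i).valMinAbs.natAbs := Int.natAbs_add_le _ _
  exact (h1.trans h2).trans (add_le_add
    (Finset.le_sup (f := fun i => (x i).valMinAbs.natAbs) (mem_univ i))
    (Finset.le_sup (f := fun i => (y i).valMinAbs.natAbs) (mem_univ i)))

/-- One particle moves by at least `D` with small probability. -/
lemma move_le (hL : 2 ≤ L) {t : ℝ} (ht : 0 ≤ t) {D : ℕ} (hD : 1 ≤ D) (a : Fin d → ZMod L) :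
    sg (tr d L) t (fun σ => if D ≤ nrm (σ.symm a - a) then (1 : ℝ) else 0) 1 ≤
      2 * d * Real.exp (2 * t - D) := by
  have h1 := sg_one (tr d L) t (fun y => if D ≤ nrm (y - a) then (1 : ℝ) else 0) a
  rw [h1, heat_eq_sum]
  have h2 : ∑ y, hk d L t a y * (if D ≤ nrm (y - a) then (1 : ℝ) else 0) =
      ∑ y ∈ univ.filter (fun y => ((D : ℕ) : ℝ) ≤ nrm (y - a)), hk d L t a y := by
    rw [Finset.sum_filter]
    refine Finset.sum_congr rfl fun y _ => ?_
    have : (((D : ℕ) : ℝ) ≤ nrm (y - a)) ↔ D ≤ nrm (y - a) := by exact_mod_cast Iff.rfl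
    by_cases h : D ≤ nrm (y - a)
    · rw [if_pos h, if_pos (this.2 h), mul_one]
    · rw [if_neg h, if_neg (fun h' => h (this.1 h')), mul_zero]
  rw [h2]
  refine (hk_tail_lam hL (lam := 1) ht (by exact_mod_cast hD) zero_le_one a).trans ?_
  refine mul_le_mul_of_nonneg_left (Real.exp_le_exp.2 ?_) (by positivity)
  have h3 := cosh_sub_one_le (lam := 1) zero_le_one le_rfl
  nlinarith

end torus

/-- The middle of the box. -/
def mid (d n : ℕ) [NeZero n] : Bx d n :=
  fun _ => ⟨n / 2, Nat.div_lt_self (Nat.pos_of_ne_zero (NeZero.ne n)) (by norm_num)⟩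

/-- The points of the box at distance at most `r` from the middle. -/
def ball (d n r : ℕ) : Finset (Bx d n) :=
  univ.filter fun u => ∀ i, n / 2 ≤ (u i : ℕ) + r ∧ (u i : ℕ) ≤ n / 2 + r

lemma card_ball (d n r : ℕ) : (ball d n r).card ≤ (2 * r + 1) ^ d := by
  have hinj : ((ball d n r).image (fun u => fun i => ((u i : ℕ) + r - n / 2 : ℕ))).card =
      (ball d n r).card := by
    refine Finset.card_image_of_injOn ?_
    intro u hu u' hu' h
    have hu1 := (Finset.mem_filter.1 (Finset.mem_coe.1 hu)).2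
    have hu2 := (Finset.mem_filter.1 (Finset.mem_coe.1 hu')).2
    funext i
    have h1 := congrFun h i
    simp only at h1
    have h2 := hu1 i
    have h3 := hu2 i
    exact Fin.ext (by omega)
  rw [← hinj]
  have hsub : (ball d n r).image (fun u => fun i => ((u i : ℕ) + r - n / 2 : ℕ)) ⊆
      Fintype.piFinset (fun _ : Fin d => range (2 * r + 1)) := by
    intro v hv
    obtain ⟨u, hu, rfl⟩ := Finset.mem_image.1 hv
    have hu1 := (Finset.mem_filter.1 hu).2
    rw [Fintype.mem_piFinset]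
    intro i
    have := hu1 i
    rw [Finset.mem_range]
    omega
  refine (Finset.card_le_card hsub).trans (le_of_eq ?_)
  rw [Fintype.card_piFinset]
  simp

/-- A torus point close to a point of the box is in the box. -/
lemma near_box {d n L : ℕ} [NeZero L] (hnL : n ≤ L) (u : Bx d n) (y : Fin d → ZMod L) (r : ℕ)
    (hy : nrm (y - iot d n L u) ≤ r) (hu : ∀ i, r ≤ (u i : ℕ) ∧ (u i : ℕ) + r < n) :
    ∃ u' : Bx d n, y = iot d n L u' ∧ ∀ i, (u i : ℕ) ≤ (u' i : ℕ) + r ∧ (u' i : ℕ) ≤ (u i : ℕ) + r := by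
  have hz : ∀ i, ((y i - iot d n L u i).valMinAbs).natAbs ≤ r := fun i =>
    le_trans (Finset.le_sup (f := fun i => ((y - iot d n L u) i).valMinAbs.natAbs) (mem_univ i)) hy
  refine ⟨fun i => ⟨((u i : ℤ) + (y i - iot d n L u i).valMinAbs).toNat, ?_⟩, ?_, ?_⟩
  · have h1 := hz i
    have h2 := hu i
    omega
  · funext i
    have h1 := hz i
    have h2 := hu i
    show y i = (((((u i : ℤ) + (y i - iot d n L u i).valMinAbs).toNat : ℕ)) : ZMod L)
    have h3 : ((((u i : ℤ) + (y i - iot d n L u i).valMinAbs).toNat : ℕ) : ℤ) =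
        (u i : ℤ) + (y i - iot d n L u i).valMinAbs := Int.toNat_of_nonneg (by omega)
    have h4 : (((((u i : ℤ) + (y i - iot d n L u i).valMinAbs).toNat : ℕ)) : ZMod L) =
        (((((u i : ℤ) + (y i - iot d n L u i).valMinAbs).toNat : ℕ) : ℤ) : ZMod L) := by
      push_cast; rfl
    rw [h4, h3, Int.cast_add, ZMod.coe_valMinAbs, Int.cast_natCast]
    show y i = ((u i : ℕ) : ZMod L) + (y i - ((u i : ℕ) : ZMod L))
    ring
  · intro i
    have h1 := hz i
    have h2 := hu i
    constructor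
    · show (u i : ℕ) ≤ ((u i : ℤ) + (y i - iot d n L u i).valMinAbs).toNat + r
      omega
    · show ((u i : ℤ) + (y i - iot d n L u i).valMinAbs).toNat ≤ (u i : ℕ) + r
      omega

section main
variable {d n L : ℕ} [NeZero n] [NeZero L]

/-- The ball in the torus. -/
def tball (d : ℕ) {n L : ℕ} (h : n ≤ L) (r : ℕ) : Finset (Fin d → ZMod L) :=
  (ball d n r).map (emb h)

lemma card_tball (h : n ≤ L) (r : ℕ) : (tball d h r).card ≤ (2 * r + 1) ^ d := by
  unfold tball
  rw [Finset.card_map]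
  exact card_ball d n r

/-- The heat bound. -/
lemma heat_rem_le (hL : 2 ≤ L) (h : n ≤ L) {r D : ℕ} (hD : 1 ≤ D) (hr : 2 * (r + D + 2) ≤ n)
    {s : ℝ} (hs : 0 ≤ s) {a : Fin d → ZMod L} (ha : a ∈ tball d h r) :
    heat (tr d L) s (rem (tr d L) (cbox d n L)) a ≤ 2 * d * (2 * d * Real.exp (2 * s - D)) := by
  obtain ⟨u, hu, rfl⟩ := Finset.mem_map.1 ha
  have hu1 := (Finset.mem_filter.1 hu).2
  show heat (tr d L) s (rem (tr d L) (cbox d n L)) (iot d n L u) ≤ _
  have hpt : ∀ y, rem (tr d L) (cbox d n L) y ≤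
      (2 * d) * (if D ≤ nrm (y - iot d n L u) then (1 : ℝ) else 0) := by
    intro y
    split_ifs with h1
    · rw [mul_one]; exact rem_le h y
    · rw [mul_zero]
      have h2 : nrm (y - iot d n L u) ≤ D - 1 := by omega
      obtain ⟨u', hy, hu'⟩ := near_box h u y (D - 1) h2 (fun i => by
        have := hu1 i
        omega)
      rw [hy, rem_zero h u' (fun i => by
        have h3 := hu1 i
        have h4 := hu' i
        omega)]
  have h1 : heat (tr d L) s (rem (tr d L) (cbox d n L)) (iot d n L u) ≤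
      heat (tr d L) s (fun y => (2 * d) * (if D ≤ nrm (y - iot d n L u) then (1 : ℝ) else 0))
        (iot d n L u) := heat_mono tr_nonneg hs hpt _
  refine h1.trans ?_
  rw [heat_eq_sum]
  have h2 : ∑ y, hk d L s (iot d n L u) y *
      ((2 * d) * (if D ≤ nrm (y - iot d n L u) then (1 : ℝ) else 0)) =
      (2 * d) * ∑ y, hk d L s (iot d n L u) y *
        (if D ≤ nrm (y - iot d n L u) then (1 : ℝ) else 0) := by
    rw [Finset.mul_sum]
    exact Finset.sum_congr rfl fun y _ => by ring
  rw [h2]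
  refine mul_le_mul_of_nonneg_left ?_ (by positivity)
  have h3 := move_le hL hs hD (iot d n L u)
  rw [sg_one (tr d L) s (fun y => if D ≤ nrm (y - iot d n L u) then (1 : ℝ) else 0)
    (iot d n L u), heat_eq_sum] at h3
  exact h3

open Classical in
/-- The local event of the torus. -/
noncomputable def fL (d : ℕ) {n L : ℕ} [NeZero n] (h : n ≤ L) (r m : ℕ) :
    Equiv.Perm (Fin d → ZMod L) → ℝ :=
  fun σ => if shortIn (tball d h r) m (iot d n L (mid d n)) σ then 1 else 0

open Classical in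
/-- The local event of the box. -/
noncomputable def fB (d n r m : ℕ) [NeZero n] : Equiv.Perm (Bx d n) → ℝ :=
  fun σ => if shortIn (ball d n r) m (mid d n) σ then 1 else 0

lemma fL_nn (h : n ≤ L) (r m : ℕ) (σ : Equiv.Perm (Fin d → ZMod L)) : 0 ≤ fL d h r m σ := by
  unfold fL; split_ifs <;> norm_num

lemma fL_le (h : n ≤ L) (r m : ℕ) (σ : Equiv.Perm (Fin d → ZMod L)) : fL d h r m σ ≤ 1 := by
  unfold fL; split_ifs <;> norm_num

/-- Torus against box. -/
lemma torus_box (hL : 2 ≤ L) (h : n ≤ L) {r D m : ℕ} (hD : 1 ≤ D) (hr : 2 * (r + D + 2) ≤ n)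
    {t : ℝ} (ht : 0 ≤ t) :
    |sg (tr d L) t (fL d h r m) 1 - sg (cbox d n L) t (fL d h r m) 1| ≤
      ((2 * (r : ℝ) + 1) ^ d * (2 * d * (2 * d * Real.exp (2 * t - D)))) * t := by
  refine speed (f := fL d h r m) tr_nonneg cbox_nonneg (cbox_le h)
    (locA_shortIn (tball d h r) m (iot d n L (mid d n))) (fL_nn h r m) (fL_le h r m) ht ?_
  · intro s hs hst
    calc ∑ a ∈ tball d h r, heat (tr d L) s (rem (tr d L) (cbox d n L)) a ≤
        ∑ a ∈ tball d h r, 2 * d * (2 * d * Real.exp (2 * t - D)) := by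
          refine Finset.sum_le_sum fun a ha => (heat_rem_le hL h hD hr hs ha).trans ?_
          refine mul_le_mul_of_nonneg_left (mul_le_mul_of_nonneg_left
            (Real.exp_le_exp.2 (by linarith)) (by positivity)) (by positivity)
      _ = ((tball d h r).card : ℝ) * (2 * d * (2 * d * Real.exp (2 * t - D))) := by
          rw [Finset.sum_const, nsmul_eq_mul]
      _ ≤ _ := by
          refine mul_le_mul_of_nonneg_right ?_ (by positivity)
          have := card_tball (d := d) h r
          exact_mod_cast this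

lemma via_pow (h : n ≤ L) (τ : Equiv.Perm (Bx d n)) (k : ℕ) (u : Bx d n) :
    ((τ.viaEmbedding (emb (L := L) h))⁻¹ ^ k) (iot d n L u) = iot d n L ((τ⁻¹ ^ k) u) := by
  have h1 : (τ.viaEmbedding (emb (L := L) h))⁻¹ ^ k = (τ⁻¹ ^ k).viaEmbedding (emb h) := by
    have h2 := map_pow (Equiv.Perm.viaEmbeddingHom (emb (d := d) (L := L) h)) τ⁻¹ k
    have h3 := map_inv (Equiv.Perm.viaEmbeddingHom (emb (d := d) (L := L) h)) τ
    rw [h3] at h2
    exact h2.symm
  rw [h1]
  exact Equiv.Perm.viaEmbedding_apply (τ⁻¹ ^ k) (emb h) u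

lemma fL_via (h : n ≤ L) (r m : ℕ) (τ : Equiv.Perm (Bx d n)) :
    fL d h r m (τ.viaEmbedding (emb h)) = fB d n r m τ := by
  unfold fL fB
  have e : shortIn (tball d h r) m (iot d n L (mid d n)) (τ.viaEmbedding (emb h)) ↔
      shortIn (ball d n r) m (mid d n) τ := by
    unfold shortIn
    refine exists_congr fun k => and_congr Iff.rfl (and_congr Iff.rfl (and_congr ?_ ?_))
    · rw [via_pow]
      exact (iot_inj h).eq_iff
    · refine forall_congr' fun j => forall_congr' fun _ => ?_
      rw [via_pow]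
      exact Finset.mem_map' (emb h)
  by_cases hs : shortIn (ball d n r) m (mid d n) τ
  · rw [if_pos hs, if_pos (e.2 hs)]
  · rw [if_neg hs, if_neg (fun h' => hs (e.1 h'))]

lemma box_eq (h : n ≤ L) (r m : ℕ) (t : ℝ) :
    sg (cbox d n L) t (fL d h r m) 1 = sg (kap d n) t (fB d n r m) 1 := by
  rw [sg_cbox h]
  have e : (fun τ : Equiv.Perm (Bx d n) => fL d h r m (τ.viaEmbedding (emb h))) = fB d n r m :=
    funext fun τ => fL_via h r m τ
  rw [e]

/-- Upper bound of the short cycle probability by the local event. -/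
lemma pShort_le (hL : 2 ≤ L) (h : n ≤ L) {D m : ℕ} (hD : 1 ≤ D) (hr : 2 * (m * D + D + 2) ≤ n)
    {t : ℝ} (ht : 0 ≤ t) :
    pShort d L t (iot d n L (mid d n)) m ≤ sg (tr d L) t (fL d h (m * D) m) 1 +
      (2 * ((m * D : ℕ) : ℝ) + 1) ^ d * (2 * d * Real.exp (2 * t - D)) := by
  unfold pShort
  rw [expect_eq]
  set A := tball d h (m * D) with hA
  have hpt : ∀ σ : Equiv.Perm (Fin d → ZMod L),
      (if (cyc σ (iot d n L (mid d n))).card ≤ m then (1 : ℝ) else 0) ≤
      (fL d h (m * D) m + ∑ a ∈ A, (fun σ : Equiv.Perm (Fin d → ZMod L) =>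
        if D ≤ nrm (σ.symm a - a) then (1 : ℝ) else 0)) σ := by
    intro σ
    rw [Pi.add_apply, Finset.sum_apply]
    have h0 : 0 ≤ fL d h (m * D) m σ := by unfold fL; split_ifs <;> norm_num
    have h1 : 0 ≤ ∑ a ∈ A, (if D ≤ nrm (σ.symm a - a) then (1 : ℝ) else 0) :=
      Finset.sum_nonneg fun a _ => by split_ifs <;> norm_num
    split_ifs with hc
    · by_cases hex : ∃ a ∈ A, D ≤ nrm (σ.symm a - a)
      · obtain ⟨a, ha, hDa⟩ := hex
        have h2 : (1 : ℝ) ≤ ∑ a ∈ A, (if D ≤ nrm (σ.symm a - a) then (1 : ℝ) else 0) := by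
          have h3 := Finset.single_le_sum (f := fun a => if D ≤ nrm (σ.symm a - a) then (1 : ℝ)
            else 0) (fun a _ => by split_ifs <;> norm_num) ha
          simp only [if_pos hDa] at h3
          exact h3
        linarith
      · push Not at hex
        obtain ⟨k, hk1, hk2, hk3⟩ := (card_cyc_le_iff σ _ m).1 hc
        have hstay : ∀ j, j ≤ m → (σ⁻¹ ^ j) (iot d n L (mid d n)) ∈ A ∧
            nrm ((σ⁻¹ ^ j) (iot d n L (mid d n)) - iot d n L (mid d n)) ≤ j * D := by
          intro j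
          induction j with
          | zero =>
            intro _
            refine ⟨?_, by simp [nrm]⟩
            rw [hA]
            refine Finset.mem_map.2 ⟨mid d n, ?_, rfl⟩
            refine Finset.mem_filter.2 ⟨mem_univ _, fun i => ?_⟩
            show n / 2 ≤ n / 2 + m * D ∧ n / 2 ≤ n / 2 + m * D
            omega
          | succ j ih =>
            intro hj
            obtain ⟨ih1, ih2⟩ := ih (by omega)
            have e1 : (σ⁻¹ ^ (j + 1)) (iot d n L (mid d n)) =
                σ.symm ((σ⁻¹ ^ j) (iot d n L (mid d n))) := by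
              rw [pow_succ', Equiv.Perm.mul_apply]; rfl
            have h2 := hex _ ih1
            have h3 : nrm ((σ⁻¹ ^ (j + 1)) (iot d n L (mid d n)) - iot d n L (mid d n)) ≤
                (j + 1) * D := by
              rw [e1]
              have e2 : σ.symm ((σ⁻¹ ^ j) (iot d n L (mid d n))) - iot d n L (mid d n) =
                  (σ.symm ((σ⁻¹ ^ j) (iot d n L (mid d n))) - (σ⁻¹ ^ j) (iot d n L (mid d n))) +
                  ((σ⁻¹ ^ j) (iot d n L (mid d n)) - iot d n L (mid d n)) := by abel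
              rw [e2]
              have h4 := nrm_add_le (σ.symm ((σ⁻¹ ^ j) (iot d n L (mid d n))) -
                (σ⁻¹ ^ j) (iot d n L (mid d n)))
                ((σ⁻¹ ^ j) (iot d n L (mid d n)) - iot d n L (mid d n))
              have h5 : (j + 1) * D = j * D + D := by ring
              omega
            refine ⟨?_, h3⟩
            have h6 : (j + 1) * D ≤ m * D := Nat.mul_le_mul_right D hj
            obtain ⟨u', hy, hu'⟩ := near_box h (mid d n) _ (m * D) (h3.trans h6) (fun i => by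
              show m * D ≤ n / 2 ∧ n / 2 + m * D < n
              omega)
            rw [hy, hA]
            refine Finset.mem_map.2 ⟨u', Finset.mem_filter.2 ⟨mem_univ _, fun i => ?_⟩, rfl⟩
            exact hu' i
        have h2 : fL d h (m * D) m σ = 1 := by
          unfold fL
          rw [if_pos]
          exact ⟨k, hk1, hk2, hk3, fun j hj => (hstay j (by omega)).1⟩
        linarith
    · linarith
  refine (sg_mono tr_nonneg hpt ht 1).trans ?_
  rw [sg_add, map_sum, Finset.sum_apply]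
  refine add_le_add le_rfl ?_
  calc ∑ a ∈ A, sg (tr d L) t (fun σ : Equiv.Perm (Fin d → ZMod L) =>
        if D ≤ nrm (σ.symm a - a) then (1 : ℝ) else 0) 1 ≤
      ∑ a ∈ A, 2 * d * Real.exp (2 * t - D) :=
        Finset.sum_le_sum fun a _ => move_le hL ht hD a
    _ = (A.card : ℝ) * (2 * d * Real.exp (2 * t - D)) := by
        rw [Finset.sum_const, nsmul_eq_mul]
    _ ≤ _ := by
        refine mul_le_mul_of_nonneg_right ?_ (by positivity)
        have := card_tball (d := d) h (m * D)
        exact_mod_cast this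

/-- Lower bound of the short cycle probability by the local event. -/
lemma le_pShort (h : n ≤ L) (r m : ℕ) {t : ℝ} (ht : 0 ≤ t) :
    sg (tr d L) t (fL d h r m) 1 ≤ pShort d L t (iot d n L (mid d n)) m := by
  unfold pShort
  rw [expect_eq]
  refine sg_mono tr_nonneg (fun σ => ?_) ht 1
  unfold fL
  by_cases hs : shortIn (tball d h r) m (iot d n L (mid d n)) σ
  · obtain ⟨k, h1, h2, h3, -⟩ := id hs
    rw [if_pos hs, if_pos ((card_cyc_le_iff σ _ m).2 ⟨k, h1, h2, h3⟩)]
  · rw [if_neg hs]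
    split_ifs <;> norm_num

end main

/-- **Comparison of two tori** (at the middle of the box). -/
theorem transfer_mid {d : ℕ} {L L' m D : ℕ} [NeZero L] [NeZero L'] (hL' : 2 ≤ L')
    (hLL : L' ≤ L) (hD : 1 ≤ D) (hmD : 2 * (m * D + D + 2) ≤ L') {t : ℝ} (ht : 0 ≤ t) :
    pShort d L t (iot d L' L (mid d L')) m ≤ pShort d L' t (iot d L' L' (mid d L')) m +
      (2 * (m : ℝ) * D + 1) ^ d * ((8 * (d : ℝ) ^ 2 * t + 2 * d) * Real.exp (2 * t - D)) := by
  have h1 := pShort_le (d := d) (hL'.trans hLL) hLL (m := m) hD hmD ht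
  have h2 := torus_box (d := d) (hL'.trans hLL) hLL (m := m) hD hmD ht
  have h3 := torus_box (d := d) hL' (le_refl L') (m := m) hD hmD ht
  have h4 := le_pShort (d := d) (le_refl L') (m * D) m ht
  rw [box_eq] at h2 h3
  have h5 := (abs_le.1 h2).2
  have h6 := (abs_le.1 h3).1
  have e1 : (2 * (m : ℝ) * D + 1) = 2 * ((m * D : ℕ) : ℝ) + 1 := by push_cast; ring
  rw [e1]
  nlinarith

end Pool.Agent.Stirring.FT
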