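import Pool.Agent.Lib.MP_6c3d62_pr.FT.Avg
import Pool.Agent.Lib.MP_6c3d62_pr.FT.Tr

/-! Comparison of two tori, at arbitrary points. -/

set_option autoImplicit false
set_option linter.unusedSectionVars false

open Finset

namespace Pool.Agent.Stirring.FT

open Hier QK

/-- **Comparison of two tori.** The probabilities of a short cycle on two tori, both large with
respect to `m D`, are nearly equal. -/
theorem transfer {d : ℕ} (hd : 1 ≤ d) {L L' m D : ℕ} [NeZero L] [NeZero L'] (hL' : 2 ≤ L')
    (hLL : L' ≤ L) (hD : 1 ≤ D) (hmD : 2 * (m * D + D + 2) ≤ L') {t : ℝ} (ht : 0 ≤ t)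
    (x : Fin d → ZMod L) (x' : Fin d → ZMod L') :
    pShort d L t x m ≤ pShort d L' t x' m +
      (2 * (m : ℝ) * D + 1) ^ d * ((8 * (d : ℝ) ^ 2 * t + 2 * d) * Real.exp (2 * t - D)) := by
  rw [pShort_eq t x (iot d L' L (mid d L')), pShort_eq t x' (iot d L' L' (mid d L'))]
  exact transfer_mid hL' hLL hD hmD ht

end Pool.Agent.Stirring.FT
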